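import Pool.Agent.Work.MP_327059_nt.Stmts

/-!
# MP_327059_nt : auxiliary results for the non vanishing statement (`StmtNV`)
-/

open Polynomial Filter Topology

namespace GSL

namespace NV

/-! ### The exponential polynomial -/

/-- The exponential polynomial with coefficients `p`. -/
noncomputable def F (β l : ℂ) {S L₀ : ℕ} (p : Ix S L₀ → ℂ) (z : ℂ) : ℂ :=
  ∑ r, p r * (z ^ (r.1 : ℕ) * Complex.exp (wv β r.2.1 * l * z))

theorem F_diff (β l : ℂ) {S L₀ : ℕ} (p : Ix S L₀ → ℂ) : Differentiable ℂ (F β l p) := by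
  unfold F
  fun_prop

theorem F_iter (β l : ℂ) {S L₀ : ℕ} (p : Ix S L₀ → ℂ) (tau : ℕ) (ζ : ℂ) :
    iteratedDeriv tau (F β l p) ζ =
      ∑ r, p r * (ent0 l (wv β r.2.1) ζ r.1 tau * Complex.exp (wv β r.2.1 * ζ * l)) := by
  unfold F
  rw [iteratedDeriv_fun_sum (fun r _ => by fun_prop)]
  refine Finset.sum_congr rfl fun r _ => ?_
  rw [iteratedDeriv_const_mul_field]
  congr 1
  rw [iteratedDeriv_fun_mul (by fun_prop) (by fun_prop), ent0, Finset.sum_mul]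
  refine Finset.sum_congr rfl fun k _ => ?_
  rw [iteratedDeriv_pow, iteratedDeriv_cexp_const_mul]
  have : wv β r.2.1 * l * ζ = wv β r.2.1 * ζ * l := by ring
  beta_reduce
  rw [this]
  ring

theorem circ_bound {S : ℕ} {p : ℤ × ℤ} (hp : p ∈ circ S) : |(p.1 : ℝ)| ≤ S ∧ |(p.2 : ℝ)| ≤ S := by
  rw [circ, Finset.mem_filter, Finset.mem_product, Finset.mem_Icc, Finset.mem_Icc] at hp
  obtain ⟨⟨⟨h1, h2⟩, h3, h4⟩, -⟩ := hp
  constructor <;> rw [abs_le] <;> constructor <;> exact_mod_cast (by assumption)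

theorem lin_bound (u v : ℂ) {S : ℕ} {p : ℤ × ℤ} (hp : p ∈ circ S) :
    ‖(p.1 * u + p.2 * v : ℂ)‖ ≤ (‖u‖ + ‖v‖) * S := by
  obtain ⟨h1, h2⟩ := circ_bound hp
  calc ‖(p.1 * u + p.2 * v : ℂ)‖ ≤ ‖(p.1 * u : ℂ)‖ + ‖(p.2 * v : ℂ)‖ := norm_add_le _ _
    _ = |(p.1 : ℝ)| * ‖u‖ + |(p.2 : ℝ)| * ‖v‖ := by
      rw [norm_mul, norm_mul, Complex.norm_intCast, Complex.norm_intCast]
    _ ≤ S * ‖u‖ + S * ‖v‖ := by gcongr
    _ = _ := by ring

theorem wv_eq (β l : ℂ) (p : ℤ × ℤ) : wv β p * l = p.1 * l + p.2 * (β * l) := by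
  rw [wv]; ring

theorem zv_eq (t : ℤ) (β : ℂ) (q : ℤ × ℤ) : zv t β q = q.1 * (β - t) + q.2 * 1 := by
  rw [zv]; ring

theorem F_bound (β l : ℂ) {S L₀ : ℕ} (p : Ix S L₀ → ℂ) (hp : ∀ r, ‖p r‖ ≤ 1) (R : ℝ)
    (hR : 1 ≤ R) (z : ℂ) (hz : ‖z‖ ≤ R) :
    ‖F β l p z‖ ≤ (L₀ * (circ S).card : ℝ) *
      (R ^ L₀ * Real.exp ((‖l‖ + ‖β * l‖) * S * R)) := by
  have hcard : (Fintype.card (Ix S L₀) : ℝ) = (L₀ * (circ S).card : ℝ) := by
    rw [Fintype.card_prod, Fintype.card_fin, Fintype.card_coe, Nat.cast_mul]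
  calc ‖F β l p z‖ ≤ ∑ r : Ix S L₀, R ^ L₀ * Real.exp ((‖l‖ + ‖β * l‖) * S * R) := by
        refine (norm_sum_le _ _).trans (Finset.sum_le_sum fun r _ => ?_)
        rw [norm_mul, norm_mul, norm_pow]
        have h1 : ‖z‖ ^ (r.1 : ℕ) ≤ R ^ L₀ :=
          (pow_le_pow_left₀ (norm_nonneg _) hz _).trans (pow_le_pow_right₀ hR r.1.2.le)
        have h2 : ‖Complex.exp (wv β r.2.1 * l * z)‖ ≤
            Real.exp ((‖l‖ + ‖β * l‖) * S * R) := by
          refine (Complex.norm_exp_le_exp_norm _).trans (Real.exp_le_exp.2 ?_)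
          rw [norm_mul, wv_eq]
          have := lin_bound l (β * l) r.2.2
          exact mul_le_mul this hz (norm_nonneg _) ((norm_nonneg _).trans this)
        calc ‖p r‖ * (‖z‖ ^ (r.1 : ℕ) * ‖Complex.exp (wv β r.2.1 * l * z)‖) ≤
            1 * (R ^ L₀ * Real.exp ((‖l‖ + ‖β * l‖) * S * R)) := by
              refine mul_le_mul (hp r) (mul_le_mul h1 h2 (norm_nonneg _) (by positivity))
                (by positivity) zero_le_one
          _ = _ := one_mul _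
    _ = _ := by rw [Finset.sum_const, Finset.card_univ, nsmul_eq_mul, hcard]

/-! ### Numerical estimates -/

theorem pow_exp {x : ℝ} (hx : 0 < x) (n : ℕ) : x ^ n = Real.exp (n * Real.log x) := by
  rw [Real.exp_nat_mul, Real.exp_log hx]

theorem two_exp {a b : ℝ} (h : 2 ≤ Real.exp a) : 2 * Real.exp b ≤ Real.exp (a + b) := by
  rw [Real.exp_add]
  exact mul_le_mul_of_nonneg_right h (Real.exp_pos _).le

theorem num1 {θ ε V Λ L C K r R : ℝ} {N : ℕ} (hθ : 0 < θ) (hθ1 : θ ≤ 1 / 100) (hε : 0 < ε)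
    (hε1 : ε < 1) (hV : 0 < V) (hΛ : 0 < Λ) (hL : 0 < L) (hC : 1 ≤ C)
    (hN1 : (1 + ε / 2) * L ≤ N) (hN2 : (N : ℝ) ≤ (1 + ε) * L)
    (hL1 : 2 * L * Λ ≤ (1 + θ) * V) (hL2 : (1 - θ) * V ≤ 2 * L * Λ) (hK1 : 1 ≤ K)
    (hK : Real.log (4 * C) ≤ K) (hKL : 2 * K * L ≤ θ * V) (h2 : 2 ≤ Real.exp (θ * V))
    (hr : 0 < r) (hrC : Real.log r = Real.log C + Λ) (hR : 0 < R)
    (hRl : Real.log R = (3 - θ) * Λ) (hrR : 2 * r ≤ R) :
    (N : ℝ) * (L * Real.exp (-((1 + ε) * V) + θ * V)) *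
        Real.exp (N * (Real.log r - (1 - θ) * Λ)) +
      (2 * r) ^ N * (Real.exp (3 * (θ * V)) + (N : ℝ) * (L * Real.exp (-((1 + ε) * V) + θ * V)) *
        Real.exp (N * (Real.log R - (1 - θ) * Λ))) / (R - r) ^ N ≤
      Real.exp (-((1 + ε / 2) * V) + 11 * (θ * V)) := by
  have hθV : 0 < θ * V := mul_pos hθ hV
  have hNL : (N : ℝ) ≤ 2 * L := hN2.trans (by nlinarith)
  have hNe : (N : ℝ) ≤ Real.exp (θ * V) := by
    have h1 := Real.add_one_le_exp (θ * V)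
    nlinarith
  have hLe : L ≤ Real.exp (θ * V) := by
    have h1 := Real.add_one_le_exp (θ * V)
    nlinarith
  have hNnn : (0 : ℝ) ≤ N := Nat.cast_nonneg N
  have hη : L * Real.exp (-((1 + ε) * V) + θ * V) ≤ Real.exp (-((1 + ε) * V) + 2 * (θ * V)) := by
    have : -((1 + ε) * V) + 2 * (θ * V) = θ * V + (-((1 + ε) * V) + θ * V) := by ring
    rw [this, Real.exp_add (θ * V)]
    exact mul_le_mul_of_nonneg_right hLe (Real.exp_pos _).le
  have hη0 : 0 ≤ L * Real.exp (-((1 + ε) * V) + θ * V) := by positivity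
  have hNη : (N : ℝ) * (L * Real.exp (-((1 + ε) * V) + θ * V)) ≤
      Real.exp (-((1 + ε) * V) + 3 * (θ * V)) := by
    have : -((1 + ε) * V) + 3 * (θ * V) = θ * V + (-((1 + ε) * V) + 2 * (θ * V)) := by ring
    rw [this, Real.exp_add (θ * V)]
    exact mul_le_mul hNe hη hη0 (Real.exp_pos _).le
  have hC0 : 0 ≤ Real.log C := Real.log_nonneg hC
  have hCK : Real.log C ≤ K := (Real.log_le_log (by linarith) (by linarith)).trans hK
  have hNC : (N : ℝ) * Real.log (4 * C) ≤ θ * V := by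
    have h0 : 0 ≤ Real.log (4 * C) := Real.log_nonneg (by linarith)
    calc (N : ℝ) * Real.log (4 * C) ≤ (2 * L) * K := mul_le_mul hNL hK h0 (by linarith)
      _ = 2 * K * L := by ring
      _ ≤ _ := hKL
  have hNC' : (N : ℝ) * Real.log C ≤ θ * V := by
    calc (N : ℝ) * Real.log C ≤ (2 * L) * K := mul_le_mul hNL hCK hC0 (by linarith)
      _ = 2 * K * L := by ring
      _ ≤ _ := hKL
  have hNΛ : (N : ℝ) * Λ ≤ 2 * V := by
    have : (N : ℝ) * Λ ≤ 2 * L * Λ := mul_le_mul_of_nonneg_right hNL hΛ.le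
    nlinarith
  -- first term
  have hE1 : (N : ℝ) * (Real.log r - (1 - θ) * Λ) ≤ 3 * (θ * V) := by
    rw [hrC]
    have : (N : ℝ) * (Real.log C + Λ - (1 - θ) * Λ) = N * Real.log C + θ * (N * Λ) := by ring
    rw [this]
    have h3 : θ * (N * Λ) ≤ θ * (2 * V) := mul_le_mul_of_nonneg_left hNΛ hθ.le
    linarith
  have hT1 : (N : ℝ) * (L * Real.exp (-((1 + ε) * V) + θ * V)) *
      Real.exp (N * (Real.log r - (1 - θ) * Λ)) ≤
      Real.exp (-((1 + ε / 2) * V) + 10 * (θ * V)) := by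
    calc _ ≤ Real.exp (-((1 + ε) * V) + 3 * (θ * V)) * Real.exp (3 * (θ * V)) :=
          mul_le_mul hNη (Real.exp_le_exp.2 hE1) (Real.exp_pos _).le (Real.exp_pos _).le
      _ = Real.exp (-((1 + ε) * V) + 3 * (θ * V) + 3 * (θ * V)) := (Real.exp_add _ _).symm
      _ ≤ _ := Real.exp_le_exp.2 (by nlinarith [mul_pos hε hV])
  -- second term
  have hE2 : (N : ℝ) * (Real.log R - (1 - θ) * Λ) ≤ (1 + ε) * V + 2 * (θ * V) := by
    rw [hRl]
    have h3 : (N : ℝ) * ((3 - θ) * Λ - (1 - θ) * Λ) = 2 * (N * Λ) := by ring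
    rw [h3]
    have h4 : (N : ℝ) * Λ ≤ (1 + ε) * L * Λ := mul_le_mul_of_nonneg_right hN2 hΛ.le
    have h5 : (1 + ε) * (2 * L * Λ) ≤ (1 + ε) * ((1 + θ) * V) :=
      mul_le_mul_of_nonneg_left hL1 (by linarith)
    have h6 : ε * (θ * V) ≤ 1 * (θ * V) := mul_le_mul_of_nonneg_right hε1.le hθV.le
    have h7 : (1 + ε) * ((1 + θ) * V) = (1 + ε) * V + θ * V + ε * (θ * V) := by ring
    have h8 : (1 + ε) * (2 * L * Λ) = 2 * ((1 + ε) * L * Λ) := by ring
    linarith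
  have hT2a : (N : ℝ) * (L * Real.exp (-((1 + ε) * V) + θ * V)) *
      Real.exp (N * (Real.log R - (1 - θ) * Λ)) ≤ Real.exp (5 * (θ * V)) := by
    calc _ ≤ Real.exp (-((1 + ε) * V) + 3 * (θ * V)) * Real.exp ((1 + ε) * V + 2 * (θ * V)) :=
          mul_le_mul hNη (Real.exp_le_exp.2 hE2) (Real.exp_pos _).le (Real.exp_pos _).le
      _ = Real.exp (5 * (θ * V)) := by rw [← Real.exp_add]; congr 1; ring
  have hT2b : Real.exp (3 * (θ * V)) + (N : ℝ) * (L * Real.exp (-((1 + ε) * V) + θ * V)) *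
      Real.exp (N * (Real.log R - (1 - θ) * Λ)) ≤ Real.exp (6 * (θ * V)) := by
    have h3 : Real.exp (3 * (θ * V)) ≤ Real.exp (5 * (θ * V)) :=
      Real.exp_le_exp.2 (by linarith)
    have h4 := two_exp (b := 5 * (θ * V)) h2
    have h5 : θ * V + 5 * (θ * V) = 6 * (θ * V) := by ring
    rw [h5] at h4
    linarith
  have hT2c : (2 * r) ^ N / (R - r) ^ N ≤ Real.exp (-((1 + ε / 2) * V) + 4 * (θ * V)) := by
    have h3 : R / 2 ≤ R - r := by linarith
    have hR2 : 0 < R / 2 := by linarith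
    calc (2 * r) ^ N / (R - r) ^ N ≤ (2 * r) ^ N / (R / 2) ^ N := by
          apply div_le_div_of_nonneg_left (by positivity) (by positivity)
          exact pow_le_pow_left₀ hR2.le h3 N
      _ = ((2 * r) / (R / 2)) ^ N := (div_pow _ _ _).symm
      _ = Real.exp (N * Real.log ((2 * r) / (R / 2))) := pow_exp (by positivity) N
      _ ≤ _ := Real.exp_le_exp.2 ?_
    have h4 : Real.log ((2 * r) / (R / 2)) = Real.log (4 * C) - (2 - θ) * Λ := by
      have h5 : (2 * r) / (R / 2) = 4 * r / R := by field_simp; ring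
      rw [h5, Real.log_div (by positivity) hR.ne', Real.log_mul (by norm_num) hr.ne',
        Real.log_mul (by norm_num) (by linarith), hrC, hRl]
      ring
    rw [h4]
    have h6 : (1 + ε / 2) * L * ((2 - θ) * Λ) ≤ N * ((2 - θ) * Λ) :=
      mul_le_mul_of_nonneg_right hN1 (mul_nonneg (by linarith) hΛ.le)
    have h7 : (1 + ε / 2) * (1 - θ / 2) * ((1 - θ) * V) ≤
        (1 + ε / 2) * (1 - θ / 2) * (2 * L * Λ) :=
      mul_le_mul_of_nonneg_left hL2 (mul_nonneg (by linarith) (by linarith))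
    have h8 : (1 + ε / 2) * V - 3 * (θ * V) ≤ (1 + ε / 2) * (1 - θ / 2) * ((1 - θ) * V) := by
      have h9 : (1 + ε / 2) * (3 / 2 - θ / 2) ≤ 3 := by nlinarith
      have h10 := mul_le_mul_of_nonneg_right h9 hθV.le
      have h11 : (1 + ε / 2) * (1 - θ / 2) * ((1 - θ) * V) =
        (1 + ε / 2) * V - (1 + ε / 2) * (3 / 2 - θ / 2) * (θ * V) := by ring
      linarith
    have h12 : (1 + ε / 2) * L * ((2 - θ) * Λ) = (1 + ε / 2) * (1 - θ / 2) * (2 * L * Λ) := by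
      ring
    have h13 : (N : ℝ) * (Real.log (4 * C) - (2 - θ) * Λ) =
      N * Real.log (4 * C) - N * ((2 - θ) * Λ) := by ring
    linarith
  have hT2 : (2 * r) ^ N * (Real.exp (3 * (θ * V)) + (N : ℝ) *
      (L * Real.exp (-((1 + ε) * V) + θ * V)) *
        Real.exp (N * (Real.log R - (1 - θ) * Λ))) / (R - r) ^ N ≤
      Real.exp (-((1 + ε / 2) * V) + 10 * (θ * V)) := by
    rw [mul_div_right_comm]
    calc _ ≤ Real.exp (-((1 + ε / 2) * V) + 4 * (θ * V)) * Real.exp (6 * (θ * V)) := by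
          refine mul_le_mul hT2c hT2b (by positivity) (Real.exp_pos _).le
      _ = _ := by rw [← Real.exp_add]; congr 1; ring
  have h9 := two_exp (b := -((1 + ε / 2) * V) + 10 * (θ * V)) h2
  have h10 : θ * V + (-((1 + ε / 2) * V) + 10 * (θ * V)) =
      -((1 + ε / 2) * V) + 11 * (θ * V) := by ring
  rw [h10] at h9
  linarith

theorem num2 {θ ε V Λ L K r₁ : ℝ} (hθ : 0 < θ) (hθ1 : θ ≤ 1 / 100) (hεθ : θ = ε / 100)
    (hε : 0 < ε) (hV : 0 < V) (hL : 0 < L)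
    (hL1 : 2 * L * Λ ≤ (1 + θ) * V) (hK1 : 1 ≤ K) (hKL : 2 * K * L ≤ θ * V)
    (hr : Real.log r₁ ≤ 3 * Λ + K) :
    L * Real.exp (-((1 + ε / 2) * V) + 11 * (θ * V)) *
      Real.exp (L * (Real.log r₁ - (1 - θ) * Λ)) < 1 := by
  have hθV : 0 < θ * V := mul_pos hθ hV
  have hLe : L ≤ Real.exp (θ * V) := by
    have h1 := Real.add_one_le_exp (θ * V)
    nlinarith
  have hE : L * (Real.log r₁ - (1 - θ) * Λ) ≤ V + 3 * (θ * V) := by
    have h1 : L * (Real.log r₁ - (1 - θ) * Λ) ≤ L * (3 * Λ + K - (1 - θ) * Λ) :=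
      mul_le_mul_of_nonneg_left (by linarith) hL.le
    have h2 : L * (3 * Λ + K - (1 - θ) * Λ) = (1 + θ / 2) * (2 * L * Λ) + K * L := by ring
    have h3 : (1 + θ / 2) * (2 * L * Λ) ≤ (1 + θ / 2) * ((1 + θ) * V) :=
      mul_le_mul_of_nonneg_left hL1 (by linarith)
    nlinarith [mul_pos hθ hθV]
  calc _ ≤ Real.exp (θ * V) * Real.exp (-((1 + ε / 2) * V) + 11 * (θ * V)) *
        Real.exp (V + 3 * (θ * V)) := by
        refine mul_le_mul (mul_le_mul_of_nonneg_right hLe (Real.exp_pos _).le)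
          (Real.exp_le_exp.2 hE) (Real.exp_pos _).le (by positivity)
    _ = Real.exp (-(ε / 2 * V) + 15 * (θ * V)) := by
        rw [← Real.exp_add, ← Real.exp_add]; congr 1; ring
    _ < 1 := by
        rw [Real.exp_lt_one_iff]
        rw [hεθ]
        nlinarith [mul_pos hε hV]

end NV

end GSL
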