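import Pool.Agent.Work.MP_327059_nt.Defs

/-!
# MP_327059_nt : statements of all lemmas of the project (each proved in its own file)
-/

open Polynomial Filter Topology

namespace GSL

/-! ## Part B: arithmetic -/

/-- Dedekind: products of roots times the leading coefficient are integral. -/
def StmtDed : Prop := ∀ (P : ℂ[X]), (∀ i, IsIntegral ℤ (P.coeff i)) → P ≠ 0 →
  ∀ (ι : Type) [Fintype ι] (x : ι → ℂ), P = C P.leadingCoeff * ∏ r, (X - C (x r)) →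
    ∀ (m : ℕ) (G : MvPolynomial ι ℂ), (∀ e, IsIntegral ℤ (G.coeff e)) →
      (∀ r, G.degreeOf r ≤ m) → IsIntegral ℤ (P.leadingCoeff ^ m * MvPolynomial.eval x G)

/-- The basic facts on `ℤ[β]` and `ℚ(β)`. -/
def StmtField : Prop := ∀ β : ℂ, IQ β →
  (∀ x : ℂ, x ∈ Fb β ↔ x ∈ Kb β) ∧ (∀ x ∈ Ob β, IsIntegral ℤ x ∧ x ∈ Kb β) ∧
  (∀ x ∈ Ob β, ∀ y ∈ Ob β, x + y ∈ Ob β ∧ x * y ∈ Ob β ∧ x - y ∈ Ob β) ∧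
  (∀ x ∈ Kb β, starRingEnd ℂ x ∈ Kb β) ∧
  (∀ x ∈ Kb β, IsIntegral ℤ x → x ≠ 0 → 1 ≤ ‖x‖) ∧
  (∀ x ∈ Kb β, ∃ m : ℕ, 0 < m ∧ (m : ℂ) * x ∈ Ob β)

/-- The discriminant inequality. -/
def StmtDisc : Prop := ∀ β : ℂ, IQ β → ∀ P : ℂ[X], PolyO β P → P ≠ 0 →
  ∀ (N : ℕ) (x : Fin N → ℂ), P = C P.leadingCoeff * ∏ r, (X - C (x r)) →
    0 ≤ 2 * N * Real.log ‖P.leadingCoeff‖ +
      ∑ r, ∑ s, (if x r = x s then 0 else Real.log ‖x r - x s‖)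

/-- Existence of the norm polynomial. -/
def StmtNG : Prop := ∀ β : ℂ, IQ β → ∀ Q : (Fb β)[X], Q.Monic → ∃ g : ℤ[X], IsNG Q g

/-- Liouville inequality for a conjugacy class over `ℚ(β)`. -/
def StmtLiou : Prop := ∀ β : ℂ, IQ β → ∀ Q : (Fb β)[X], Q.Monic → Irreducible Q →
  ∀ g : ℤ[X], IsNG Q g → ∀ D : ℂ[X], PolyO β D →
    (∃ x ∈ (toC Q).roots, D.eval x ≠ 0) → (∀ x ∈ (toC Q).roots, D.eval x ≠ 0) ∧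
      0 ≤ (D.natDegree : ℝ) * (1 / 2 * Real.log g.leadingCoeff) +
        ((toC Q).roots.map fun x => Real.log ‖D.eval x‖).sum

/-- Gauss' lemma for the sizes of the factors. -/
def StmtSuper : Prop := ∀ β : ℂ, IQ β → ∀ P : ℂ[X], PolyO β P → P ≠ 0 →
  ∀ (s : Finset (Fb β)[X]) (k : (Fb β)[X] → ℕ) (g : (Fb β)[X] → ℤ[X]),
    (∀ Q ∈ s, Q.Monic ∧ IsNG Q (g Q)) → P = C P.leadingCoeff * ∏ Q ∈ s, toC Q ^ k Q →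
      ∑ Q ∈ s, (k Q : ℝ) * Real.log (g Q).leadingCoeff ≤ 2 * Real.log ‖P.leadingCoeff‖

/-- Factorisation over `ℚ(β)` and the sums over roots. -/
def StmtFactor : Prop := ∀ β : ℂ, IQ β → ∀ P : ℂ[X], PolyO β P → P ≠ 0 →
  ∀ (N : ℕ) (x : Fin N → ℂ), P = C P.leadingCoeff * ∏ r, (X - C (x r)) →
    ∃ (s : Finset (Fb β)[X]) (k : (Fb β)[X] → ℕ),
      (∀ Q ∈ s, Q.Monic ∧ Irreducible Q ∧ 1 ≤ k Q) ∧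
      P = C P.leadingCoeff * ∏ Q ∈ s, toC Q ^ k Q ∧
      (∀ Q ∈ s, (toC Q).roots.card = Q.natDegree ∧ 1 ≤ Q.natDegree) ∧
      (∀ Q ∈ s, ∀ y ∈ (toC Q).roots, ∃ r, x r = y) ∧
      (∀ r, ∃ Q ∈ s, x r ∈ (toC Q).roots) ∧
      ∀ f : ℂ → ℝ, (∑ r, f (x r) = ∑ Q ∈ s, (k Q : ℝ) * ((toC Q).roots.map f).sum) ∧
        (∑ r, ∑ s', (if x r = x s' then f (x r) else 0) =
          ∑ Q ∈ s, (k Q : ℝ) ^ 2 * ((toC Q).roots.map f).sum)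

/-- `min` is a positive semidefinite kernel. -/
def StmtPSD : Prop := ∀ (ι : Type) [Fintype ι] (w u : ι → ℝ), (∀ i, 0 ≤ u i) →
  0 ≤ ∑ i, ∑ j, w i * w j * min (u i) (u j)

/-- Jensen. -/
def StmtJen : Prop := ∀ (Y c : ℂ) (N : ℕ) (x : Fin N → ℂ) (t B : ℝ), 1 ≤ ‖c‖ → 0 ≤ t →
  (∀ r, x r ≠ Y) → (∀ y : ℂ, ‖y - Y‖ ≤ Real.exp (-t) →
    ‖(C c * ∏ r, (X - C (x r))).eval y‖ ≤ Real.exp (-B)) → B ≤ ∑ r, min t (cl Y (x r))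

/-- The upper bound for the energy. -/
def StmtUp : Prop := ∀ β : ℂ, IQ β → ∀ Y : ℂ, ∀ P : ℂ[X], PolyO β P → P ≠ 0 →
  ∀ (N : ℕ) (x : Fin N → ℂ), P = C P.leadingCoeff * ∏ r, (X - C (x r)) → (∀ r, x r ≠ Y) →
    ∀ t₀ : ℝ, 0 ≤ t₀ →
      ∑ r, ∑ s, min (max 0 (cl Y (x r) - t₀)) (max 0 (cl Y (x s) - t₀)) ≤
        2 * N * (Real.log ‖P.leadingCoeff‖ + ∑ r, Real.posLog ‖x r‖) + N ^ 2 * Real.log 2 +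
          ∑ r, ∑ s, (if x r = x s then max 0 (cl Y (x r) - t₀) else 0)

/-- `Y` is transcendental. -/
def StmtTrans : Prop := ∀ β Y : ℂ, IQ β → Iface β Y → ∀ P : ℂ[X], PolyO β P → P ≠ 0 →
  P.eval Y ≠ 0

/-- The closeness of a conjugacy class. -/
def StmtClose : Prop := ∀ β Y : ℂ, IQ β → Iface β Y → ∀ ε : ℝ, 0 < ε → ε < 1 →
  ∃ ρm cp U₀ : ℝ, 0 < ρm ∧ 0 < cp ∧ 1 < U₀ ∧ ∀ Q : (Fb β)[X], Q.Monic → Irreducible Q →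
    ∀ g : ℤ[X], IsNG Q g → ∀ x₁ ∈ (toC Q).roots, (∀ x ∈ (toC Q).roots, cl Y x ≤ cl Y x₁) →
      U₀ ≤ cl Y x₁ → ∀ ρp : ℝ, ρm ≤ ρp → ρp ≤ cp * Real.log (cl Y x₁) →
        wQ Y Q ≤ (1 + ε) * (8 / Real.pi) *
          (Q.natDegree * ht Q g + ht Q g ^ 2 / ρp + (Q.natDegree : ℝ) ^ 2 * ρm)

/-- The upper bound for the energy in terms of degree and height. -/
def StmtUpper : Prop := ∀ β Y : ℂ, IQ β → Iface β Y → ∀ ε : ℝ, 0 < ε → ε < 1 →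
  ∃ ρm cp U₀ : ℝ, 0 < ρm ∧ 0 < cp ∧ 1 < U₀ ∧ ∀ P : ℂ[X], PolyO β P → P ≠ 0 →
    ∀ (N : ℕ) (x : Fin N → ℂ), P = C P.leadingCoeff * ∏ r, (X - C (x r)) → (∀ r, x r ≠ Y) →
      ∀ t₀ : ℝ, U₀ ≤ t₀ → ∀ ρp : ℝ, ρm ≤ ρp → ρp ≤ cp * Real.log t₀ → ∀ H : ℝ,
        Real.log ‖P.leadingCoeff‖ + ∑ r, Real.posLog ‖x r‖ ≤ H →
        ∑ r, ∑ s, min (max 0 (cl Y (x r) - t₀)) (max 0 (cl Y (x s) - t₀)) ≤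
          2 * N * H + N ^ 2 * Real.log 2 +
            (1 + ε) * (8 / Real.pi) * (N * H + H ^ 2 / ρp + (N : ℝ) ^ 2 * ρm)

/-- The lower bound for the energy, real version. -/
def StmtLower : Prop := ∀ (N : ℕ) (c : Fin N → ℝ) (L V t₀ ε : ℝ), (∀ r, 0 ≤ c r) → 0 < L →
  0 < V → 0 ≤ t₀ → t₀ ≤ V / 4096 → N * t₀ ≤ ε * (L * V) → 0 < ε →
  (∀ z : ℝ, 1 / 5000 ≤ z → z ≤ 1 → ∀ m : ℕ, 1 ≤ m → m ≤ 30 →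
    (Fj m z - ε) * (L * V) ≤ ∑ r, min (z * V) (c r)) →
  (7486 / 10000 - 100 * ε) * (L ^ 2 * V) ≤
    ∑ r, ∑ s, min (max 0 (c r - t₀)) (max 0 (c s - t₀))

/-- The final contradiction. -/
def StmtFinal : Prop := ∀ β Y : ℂ, IQ β → ¬ Iface β Y

/-! ## Part A: analysis -/

/-- Data from the hypothesis. -/
def StmtAlg : Prop := ∀ β l : ℂ, IQ β → l ≠ 0 → Complex.exp l ∈ Fb β →
  l ∈ IntermediateField.adjoin ℚ {β, Complex.exp (β * l)} → ∃ D : Dat, D.β = β ∧ D.l = l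

/-- Points of a disc in `ℤ²`. -/
def StmtCount : Prop :=
  Tendsto (fun S : ℕ => ((circ S).card : ℝ) / (S : ℝ) ^ 2) atTop (𝓝 Real.pi) ∧
  Tendsto (fun S : ℕ => (∑ p ∈ circ S, ((p.1 : ℝ) ^ 2 + (p.2 : ℝ) ^ 2)) / (S : ℝ) ^ 4) atTop
    (𝓝 (Real.pi / 2))

/-- Product of distances of lattice points. -/
def StmtLat : Prop := ∀ u₁ u₂ : ℂ, (u₁ * starRingEnd ℂ u₂).im ≠ 0 → ∀ ε : ℝ, 0 < ε → ε < 1 →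
  ∃ S₁ : ℕ, ∀ S : ℕ, S₁ ≤ S → ∀ p ∈ circ S,
    Real.exp ((1 - ε) * (circ S).card * Real.log S) ≤
      ∏ p' ∈ (circ S).erase p, ‖(p.1 * u₁ + p.2 * u₂ : ℂ) - (p'.1 * u₁ + p'.2 * u₂)‖

/-- The norm `l1`. -/
def StmtL1 : Prop :=
  (∀ P : ℂ[X], 0 ≤ l1 P) ∧ (∀ P Q : ℂ[X], l1 (P + Q) ≤ l1 P + l1 Q) ∧
  (∀ P Q : ℂ[X], l1 (P * Q) ≤ l1 P * l1 Q) ∧ (∀ c : ℂ, l1 (C c) = ‖c‖) ∧ l1 X = 1 ∧
  (∀ (P : ℂ[X]) (n : ℕ), l1 (P ^ n) ≤ l1 P ^ n) ∧ (∀ n : ℕ, l1 (X ^ n) = 1) ∧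
  (∀ (ι : Type) (s : Finset ι) (f : ι → ℂ[X]), l1 (∑ i ∈ s, f i) ≤ ∑ i ∈ s, l1 (f i)) ∧
  (∀ (ι : Type) (s : Finset ι) (f : ι → ℂ[X]), l1 (∏ i ∈ s, f i) ≤ ∏ i ∈ s, l1 (f i)) ∧
  (∀ (P : ℂ[X]) (y : ℂ), ‖P.eval y‖ ≤ l1 P * (max 1 ‖y‖) ^ P.natDegree) ∧
  (∀ (P : ℂ[X]), P ≠ 0 → ∀ (N : ℕ) (x : Fin N → ℂ), P = C P.leadingCoeff * ∏ r, (X - C (x r)) →
    Real.log ‖P.leadingCoeff‖ + ∑ r, Real.posLog ‖x r‖ ≤ Real.log (l1 P))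

/-- The value of the determinant polynomial. -/
def StmtEval : Prop := ∀ (D : Dat) (S L₀ T : ℕ) (e : Ix S L₀ → Ix S T) (OT AT : ℕ),
  D.Good e OT AT → ∀ y : ℂ, y ≠ 0 → D.A₀.eval y ≠ 0 →
    (D.DP e OT AT).eval y = y ^ OT * (D.a₁ * D.a₂) ^ AT * (∏ r, D.A₀.eval y ^ ((e r).1 : ℕ)) *
      Matrix.det (Matrix.of fun s r : Ix S L₀ => D.ent (D.B₀.eval y / D.A₀.eval y) y r (e s))

/-- Integrality. -/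
def StmtInt : Prop := ∀ (D : Dat) (S L₀ T : ℕ) (e : Ix S L₀ → Ix S T) (OT AT : ℕ),
  PolyO D.β (D.DP e OT AT)

/-- Exponents of `Y` and `α`. -/
def StmtOT : Prop := ∀ (D : Dat) (ε : ℝ), 0 < ε → ε < 1 → ∃ (S₁ : ℕ) (CA : ℕ), ∀ S : ℕ, S₁ ≤ S →
  ∀ L₀ T : ℕ, (T : ℝ) ≤ (1 + ε) * L₀ → ∀ e : Ix S L₀ → Ix S T, Function.Injective e →
    D.Good e ⌊(1 + ε) / 2 * S ^ 2 * (L₀ * (circ S).card)⌋₊ (CA * S ^ 2 * (L₀ * (circ S).card))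

/-- Degree and height of the determinant polynomial. -/
def StmtHeight : Prop := ∀ (D : Dat) (CA : ℕ) (ε : ℝ), 0 < ε → ε < 1 →
  ∃ (C₁ c₁ : ℝ) (S₁ : ℕ), 0 < C₁ ∧ 0 < c₁ ∧ ∀ S L₀ T : ℕ, S₁ ≤ S →
    C₁ * S ^ 2 ≤ L₀ * Real.log S → (L₀ : ℝ) ≤ c₁ * S ^ 2 → (T : ℝ) ≤ (1 + ε) * L₀ →
    ∀ (e : Ix S L₀ → Ix S T), Function.Injective e → ∀ OT AT : ℕ,
      (OT : ℝ) ≤ (1 + ε) / 2 * S ^ 2 * (L₀ * (circ S).card) →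
      AT ≤ CA * S ^ 2 * (L₀ * (circ S).card) → D.Good e OT AT →
      ((D.DP e OT AT).natDegree : ℝ) ≤ (1 + 2 * ε) * (L₀ * (circ S).card) * S ^ 2 ∧
      l1 (D.DP e OT AT) ≤ Real.exp ((1 + 4 * ε) * (L₀ * (circ S).card) * (L₀ * Real.log S))

/-- Determinants of matrices whose entries are sums over triples. -/
def StmtDet : Prop := ∀ (R : Type) [Fintype R] [DecidableEq R] (M : Matrix R R ℂ)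
  (P Q : R → ℕ × ℕ × ℕ → ℂ), (∀ s r, HasSum (fun m => P r m * Q s m) (M s r)) →
  ∀ (h g : R → ℝ) (x y : ℝ), 0 < x → 0 < y → (∀ r, 0 ≤ h r) → (∀ s, 0 ≤ g s) →
    (∀ r s m, ‖P r m‖ * ‖Q s m‖ ≤ h r * g s * Real.exp (-(x * m.1 + y * (m.2.1 + m.2.2)))) →
    ∀ θ K : ℝ, 0 < θ → θ < 1 →
      (∀ f : R → ℕ × ℕ × ℕ, Function.Injective f →
        K ≤ ∑ r, (x * (f r).1 + y * ((f r).2.1 + (f r).2.2))) →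
      ‖M.det‖ ≤ (Fintype.card R).factorial * (∏ r, h r) * (∏ r, g r) *
        Real.exp (-((1 - θ) * K)) *
        ((1 - Real.exp (-(θ * x)))⁻¹ * ((1 - Real.exp (-(θ * y)))⁻¹) ^ 2) ^ Fintype.card R

/-- The cost of distinct triples. -/
def StmtCost : Prop := ∀ (R : Type) [Fintype R] (f : R → ℕ × ℕ × ℕ), Function.Injective f →
  ∀ x y : ℝ, 0 < x → 0 < y → ∀ m : ℕ,
    Fintype.card R * (m * y) - (y ^ 2 / (2 * x) * (m * (m + 1) ^ 2 * (m + 2) / 12) +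
      y * (m * (m + 1) * (m + 2) / 6)) ≤
      ∑ r, (x * (f r).1 + y * ((f r).2.1 + (f r).2.2))

/-- The expansion of the entries. -/
def StmtExp : Prop := ∀ (l' ε' s w ζ : ℂ) (lam tau : ℕ),
  HasSum (fun m => Pc l' ε' w lam m * Qc s ζ tau m)
    (ent0 (s * l') w ζ lam tau *
      Complex.exp (w * ζ * l' + starRingEnd ℂ w * starRingEnd ℂ ζ * ε'))

/-- Bounds for the expansion. -/
def StmtExpBd : Prop := ∀ (l' ε' s w ζ : ℂ) (lam tau : ℕ) (R₁ E y : ℝ), 1 ≤ R₁ → ‖w‖ ≤ R₁ →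
  ‖ζ‖ ≤ R₁ → (tau : ℝ) ≤ R₁ ^ 2 → 1 ≤ E → (lam : ℝ) * tau * ‖1 - s‖ ≤ Real.exp (-y) →
  R₁ ^ 2 * ‖ε'‖ ≤ Real.exp (-y) → ∀ m : ℕ × ℕ × ℕ,
    ‖Pc l' ε' w lam m‖ * ‖Qc s ζ tau m‖ ≤
      (Real.exp (2 * R₁ ^ 2 * E * ‖l'‖) * (2 * R₁ * E) ^ lam) * (max 1 ‖s‖ * R₁) ^ tau *
        Real.exp (-(Real.log E * m.1 + y * (m.2.1 + m.2.2)))

/-- Local parameters near `Y`. -/
def StmtNear : Prop := ∀ D : Dat, ∃ r₀ C₁ : ℝ, 0 < r₀ ∧ r₀ < 1 ∧ 0 < C₁ ∧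
  ∀ y : ℂ, ‖y - D.Y‖ ≤ r₀ → y ≠ 0 ∧ D.A₀.eval y ≠ 0 ∧ ‖y‖ ≤ C₁ ∧ ‖D.A₀.eval y‖ ≤ C₁ ∧
    ∃ l' ε' s : ℂ, D.B₀.eval y / D.A₀.eval y = s * l' ∧ ‖ε'‖ ≤ C₁ * ‖y - D.Y‖ ∧
      ‖1 - s‖ ≤ C₁ * ‖y - D.Y‖ ∧ ‖s‖ ≤ 2 ∧ ‖l'‖ ≤ C₁ ∧ ‖l' - D.l‖ ≤ C₁ * ‖y - D.Y‖ ∧
      ∀ p q : ℤ × ℤ, (D.a₁ / D.a₂) ^ (Af D.t D.n p q) * y ^ (Bf p q) =
        Complex.exp (wv D.β p * zv D.t D.β q * l' +
          starRingEnd ℂ (wv D.β p) * starRingEnd ℂ (zv D.t D.β q) * ε')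

/-- The number `L m y - (y² / (2 x) m (m+1)² (m+2) / 12 + y m (m+1) (m+2) / 6)` of `StmtCost`. -/
noncomputable def Kc (L x y : ℝ) (m : ℕ) : ℝ :=
  L * (m * y) - (y ^ 2 / (2 * x) * (m * (m + 1) ^ 2 * (m + 2) / 12) +
    y * (m * (m + 1) * (m + 2) / 6))

/-- The estimate of the determinant polynomial, close to `Y`, general form. -/
def StmtE0 : Prop := ∀ (D : Dat) (CA : ℕ), ∃ (C₂ : ℝ) (S₁ : ℕ), 1 ≤ C₂ ∧ 1 < S₁ ∧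
  ∀ S L₀ T : ℕ, S₁ ≤ S → 1 ≤ L₀ → (L₀ : ℝ) ≤ S ^ 2 → (T : ℝ) ≤ 2 * L₀ →
    ∀ (e : Ix S L₀ → Ix S T), Function.Injective e → ∀ OT AT : ℕ,
      OT ≤ S ^ 2 * (L₀ * (circ S).card) → AT ≤ CA * S ^ 2 * (L₀ * (circ S).card) →
      D.Good e OT AT → ∀ y₁ : ℝ, 0 < y₁ → ∀ y : ℂ,
        ‖y - D.Y‖ ≤ Real.exp (-(y₁ + C₂ * Real.log S)) → ∀ E : ℝ, 1 < E → ∀ θ : ℝ, 0 < θ →
          θ < 1 → ∀ m : ℕ,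
            ‖(D.DP e OT AT).eval y‖ ≤ Real.exp ((L₀ * (circ S).card : ℝ) *
              (C₂ * S ^ 2 * E + L₀ / 2 * (Real.log S + Real.log E + C₂) +
                (T : ℝ) ^ 2 / (2 * L₀) * (Real.log S + C₂) + C₂ * Real.log S +
                Real.log (1 + 1 / (θ * Real.log E)) + 2 * Real.log (1 + 1 / (θ * y₁))) -
              (1 - θ) * Kc (L₀ * (circ S).card) (Real.log E) y₁ m)

/-- The estimate of the determinant polynomial, close to `Y`, first form. -/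
def StmtE1 : Prop := ∀ (D : Dat) (CA : ℕ) (ε : ℝ), 0 < ε → ε < 1 →
  ∃ (C₁ c₁ : ℝ) (S₁ : ℕ), 0 < C₁ ∧ 0 < c₁ ∧ ∀ S L₀ T : ℕ, S₁ ≤ S →
    C₁ * S ^ 2 ≤ L₀ * Real.log S → (L₀ : ℝ) ≤ c₁ * S ^ 2 → (T : ℝ) ≤ (1 + ε) * L₀ →
    ∀ (e : Ix S L₀ → Ix S T), Function.Injective e → ∀ OT AT : ℕ,
      (OT : ℝ) ≤ (1 + ε) / 2 * S ^ 2 * (L₀ * (circ S).card) →
      AT ≤ CA * S ^ 2 * (L₀ * (circ S).card) → D.Good e OT AT →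
      ∀ s : ℝ, 0 ≤ s → s ≤ (1 - ε) * Vf S L₀ → ∀ y : ℂ, ‖y - D.Y‖ ≤ Real.exp (-s) →
        ‖(D.DP e OT AT).eval y‖ ≤ Real.exp ((L₀ * (circ S).card : ℝ) *
          ((1 + 5 * ε) * (L₀ * Real.log S) + 5 * ε * s) - (L₀ * (circ S).card : ℝ) * s / 2)

/-- The estimate of the determinant polynomial, close to `Y`, second form. -/
def StmtE2 : Prop := ∀ (D : Dat) (CA : ℕ) (ε : ℝ), 0 < ε → ε < 1 →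
  ∃ (C₁ c₁ : ℝ) (S₁ : ℕ), 0 < C₁ ∧ 0 < c₁ ∧ ∀ S L₀ T : ℕ, S₁ ≤ S →
    C₁ * S ^ 2 ≤ L₀ * Real.log S → (L₀ : ℝ) ≤ c₁ * S ^ 2 → (T : ℝ) ≤ (1 + ε) * L₀ →
    ∀ (e : Ix S L₀ → Ix S T), Function.Injective e → ∀ OT AT : ℕ,
      (OT : ℝ) ≤ (1 + ε) / 2 * S ^ 2 * (L₀ * (circ S).card) →
      AT ≤ CA * S ^ 2 * (L₀ * (circ S).card) → D.Good e OT AT →
      ∀ z : ℝ, 1 / 6000 ≤ z → z ≤ 1 → ∀ m : ℕ, 1 ≤ m → m ≤ 30 → ∀ y : ℂ,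
        ‖y - D.Y‖ ≤ Real.exp (-(z * Vf S L₀)) →
        ‖(D.DP e OT AT).eval y‖ ≤
          Real.exp (-((Fj m z - ε) * ((L₀ * (circ S).card : ℝ) * Vf S L₀)))

/-- Hermite basis polynomials with bounds. -/
def StmtHerm : Prop := ∀ (ι : Type) [Fintype ι] [DecidableEq ι] (x : ι → ℂ) (T : ℕ)
  (ρ μ r : ℝ), 1 ≤ T → 0 < ρ → 0 < μ → (∀ i j, i ≠ j → ρ < ‖x i - x j‖) →
  (∀ i, ∀ z : ℂ, ‖z - x i‖ = ρ → μ ≤ ‖∏ j ∈ Finset.univ.erase i, (z - x j) ^ T‖) → 1 ≤ r →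
  ρ ≤ r → (∀ i, ‖x i‖ ≤ r) → ∀ (i : ι) (tau : ℕ), tau < T → ∃ h : ℂ[X],
    h.natDegree < T * Fintype.card ι ∧
    (∀ j, ∀ tau' < T, (derivative^[tau'] h).eval (x j) = if j = i ∧ tau' = tau then 1 else 0) ∧
    ∀ r' : ℝ, r ≤ r' → ∀ z : ℂ, ‖z‖ ≤ r' →
      ‖h.eval z‖ ≤ T * (2 * r') ^ (T * Fintype.card ι) * (max 1 ρ⁻¹) ^ T / μ

/-- Interpolation estimate. -/
def StmtInterp : Prop := ∀ (ι : Type) [Fintype ι] [DecidableEq ι] (x : ι → ℂ) (T : ℕ)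
  (h : ι → ℕ → ℂ[X]) (r R η B H₁ H₂ : ℝ), 1 ≤ T → Function.Injective x → 0 < r → r < R →
  (∀ i, ‖x i‖ ≤ r) → (∀ i, ∀ tau < T, ∀ j, ∀ tau' < T,
    (derivative^[tau'] (h i tau)).eval (x j) = if j = i ∧ tau' = tau then 1 else 0) →
  (∀ i, ∀ tau < T, ∀ z : ℂ, ‖z‖ ≤ r → ‖(h i tau).eval z‖ ≤ H₁) →
  (∀ i, ∀ tau < T, ∀ z : ℂ, ‖z‖ ≤ R → ‖(h i tau).eval z‖ ≤ H₂) → 0 ≤ η → 0 ≤ B →
  ∀ f : ℂ → ℂ, Differentiable ℂ f → (∀ z : ℂ, ‖z‖ ≤ R → ‖f z‖ ≤ B) →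
    (∀ i, ∀ tau < T, ‖iteratedDeriv tau f (x i)‖ ≤ η) → ∀ z : ℂ, ‖z‖ ≤ r →
      ‖f z‖ ≤ T * Fintype.card ι * η * H₁ +
        (2 * r) ^ (T * Fintype.card ι) * (B + T * Fintype.card ι * η * H₂) /
          (R - r) ^ (T * Fintype.card ι)

/-- Estimate of the coefficients of an exponential polynomial. -/
def StmtCoef : Prop := ∀ (ι : Type) [Fintype ι] [DecidableEq ι] (x : ι → ℂ) (T : ℕ)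
  (h : ι → ℕ → ℂ[X]) (r₁ S₁ B H : ℝ), 1 ≤ T → 0 < S₁ → 0 < r₁ →
  (T * Fintype.card ι : ℝ) ≤ r₁ * S₁ → (∀ i, ∀ tau < T, (h i tau).natDegree < T * Fintype.card ι) →
  (∀ i, ∀ tau < T, ∀ j, ∀ tau' < T,
    (derivative^[tau'] (h i tau)).eval (x j) = if j = i ∧ tau' = tau then 1 else 0) →
  (∀ i, ∀ tau < T, ∀ z : ℂ, ‖z‖ ≤ r₁ → ‖(h i tau).eval z‖ ≤ H) → 0 ≤ B →
  ∀ p : ι → Fin T → ℂ, (∀ z : ℂ, ‖z‖ ≤ S₁ →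
    ‖∑ i, ∑ k : Fin T, p i k * z ^ (k : ℕ) * Complex.exp (x i * z)‖ ≤ B) →
    ∀ i (k : Fin T), ‖p i k‖ ≤ T * Fintype.card ι * B * H

/-- Hermite basis polynomials for the lattice points of a disc. -/
def StmtHermLat : Prop := ∀ u₁ u₂ : ℂ, (u₁ * starRingEnd ℂ u₂).im ≠ 0 → ∀ θ : ℝ, 0 < θ → θ < 1 →
  ∃ S₁ : ℕ, ∀ S : ℕ, S₁ ≤ S → ∀ T : ℕ, 1 ≤ T → ∃ h : {p : ℤ × ℤ // p ∈ circ S} → ℕ → ℂ[X],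
    (∀ i, ∀ tau < T, (h i tau).natDegree < T * Fintype.card {p : ℤ × ℤ // p ∈ circ S}) ∧
    (∀ i, ∀ tau < T, ∀ j, ∀ tau' < T, (derivative^[tau'] (h i tau)).eval
      (j.1.1 * u₁ + j.1.2 * u₂ : ℂ) = if j = i ∧ tau' = tau then 1 else 0) ∧
    ∀ r' : ℝ, S ≤ r' → (‖u₁‖ + ‖u₂‖) * S ≤ r' → ∀ i, ∀ tau < T, ∀ z : ℂ, ‖z‖ ≤ r' →
      ‖(h i tau).eval z‖ ≤
        Real.exp (T * (circ S).card * (Real.log r' - (1 - θ) * Real.log S))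

/-- The entries at `γ` close to `Y` compared with the values of the exponential monomials
`z^lam e^(w l z)`. -/
def StmtDiff : Prop := ∀ (D : Dat) (θ : ℝ), 0 < θ → θ < 1 → ∃ (S₁ : ℕ), 1 < S₁ ∧
  ∀ S L₀ T : ℕ, S₁ ≤ S → (S : ℝ) ^ 2 ≤ L₀ * Real.log S → (L₀ : ℝ) ≤ S ^ 2 →
    (T : ℝ) ≤ 2 * L₀ → ∀ V' : ℝ, Vf S L₀ ≤ V' → ∀ γ : ℂ, ‖γ - D.Y‖ ≤ Real.exp (-V') →
      γ ≠ 0 ∧ D.A₀.eval γ ≠ 0 ∧ ∀ (r : Ix S L₀) (c : Ix S T),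
        ‖ent0 D.l (wv D.β r.2.1) (zv D.t D.β c.2.1) r.1 c.1 *
            Complex.exp (wv D.β r.2.1 * zv D.t D.β c.2.1 * D.l) -
          D.ent (D.B₀.eval γ / D.A₀.eval γ) γ r c‖ ≤ Real.exp (-V' + θ * Vf S L₀)

/-- Non vanishing. -/
def StmtNV : Prop := ∀ (D : Dat) (ε : ℝ), 0 < ε → ε < 1 →
  ∃ (C₁ c₁ : ℝ) (S₁ : ℕ), 0 < C₁ ∧ 0 < c₁ ∧ ∀ S L₀ T : ℕ, S₁ ≤ S →
    C₁ * S ^ 2 ≤ L₀ * Real.log S → (L₀ : ℝ) ≤ c₁ * S ^ 2 → (1 + ε / 2) * L₀ ≤ (T : ℝ) →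
    (T : ℝ) ≤ (1 + ε) * L₀ → ∀ OT AT : ℕ,
      (∀ e : Ix S L₀ → Ix S T, Function.Injective e → D.Good e OT AT) →
      ∀ γ : ℂ, ‖γ - D.Y‖ ≤ Real.exp (-((1 + ε) * Vf S L₀)) →
        ∃ e : Ix S L₀ → Ix S T, Function.Injective e ∧ (D.DP e OT AT).eval γ ≠ 0

/-- Rank and minors. -/
def StmtRank : Prop := ∀ (R K : Type) [Fintype R] [DecidableEq R] [Fintype K] (M : R → K → ℂ),
  (∀ e : R → K, Function.Injective e → Matrix.det (Matrix.of fun s r => M r (e s)) = 0) →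
    ∃ p : R → ℂ, p ≠ 0 ∧ ∀ c, ∑ r, p r * M r c = 0

/-- The families at the scale `(S, L₀)`. -/
def StmtFamS : Prop := ∀ (D : Dat) (ε : ℝ), 0 < ε → ε < 1 →
  ∃ (C₁ c₁ : ℝ) (S₁ : ℕ), 0 < C₁ ∧ 0 < c₁ ∧ ∀ S L₀ : ℕ, S₁ ≤ S →
    C₁ * S ^ 2 ≤ L₀ * Real.log S → (L₀ : ℝ) ≤ c₁ * S ^ 2 → ∃ (L : ℝ) (Fm : Set ℂ[X]), 1 ≤ L ∧
      FamG D.β D.Y ε (S ^ 2) (L₀ * Real.log S) (Vf S L₀) L Fm

/-- Choice of the scale. -/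
def StmtSel : Prop := ∀ (C₁ c₁ ε : ℝ) (S₁ : ℕ), 0 < C₁ → 0 < c₁ → 0 < ε → ε < 1 →
  ∃ C c V₀ : ℝ, 0 < C ∧ 0 < c ∧ 1 < V₀ ∧ ∀ V ρ : ℝ, V₀ ≤ V → C ≤ ρ → ρ ≤ c * Real.log V →
    ∃ S L₀ : ℕ, S₁ ≤ S ∧ C₁ * S ^ 2 ≤ L₀ * Real.log S ∧ (L₀ : ℝ) ≤ c₁ * S ^ 2 ∧
      (1 - ε) * V ≤ Vf S L₀ ∧ Vf S L₀ ≤ V ∧
      (S : ℝ) ^ 2 ≤ (1 + ε) * Real.sqrt (V / (2 * Real.pi * ρ)) ∧
      L₀ * Real.log S ≤ (1 + ε) * Real.sqrt (V * ρ / (2 * Real.pi))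

/-- The analytic part. -/
def StmtIface : Prop := ∀ D : Dat, Iface D.β D.Y

/-- The theorem. -/
def StmtMain : Prop := ∀ β l : ℂ, IQ β → l ≠ 0 →
  Complex.exp l ∈ IntermediateField.adjoin ℚ {β} →
    l ∉ IntermediateField.adjoin ℚ {β, Complex.exp (β * l)}

end GSL
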