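import Pool.Agent.Work.MP_327059_nt.Stmts

/-!
# MP_327059_nt : the cost of distinct triples
-/

open Finset

namespace GSL

namespace Cost

lemma one (x : ℝ) (hx : 0 < x) (K : ℕ) : ∀ Y : ℝ,
    ∑ a ∈ range K, max 0 (Y - x * (a : ℝ)) ≤ max 0 Y + (max 0 Y) ^ 2 / (2 * x) := by
  induction K with
  | zero => intro Y; simp only [range_zero, sum_empty]; positivity
  | succ K ih =>
    intro Y
    rw [sum_range_succ']
    have h1 := ih (Y - x)
    have h2 : ∑ a ∈ range K, max 0 (Y - x * ((a + 1 : ℕ) : ℝ)) =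
        ∑ a ∈ range K, max 0 (Y - x - x * (a : ℝ)) := by
      refine sum_congr rfl fun a _ => ?_
      congr 1
      push_cast
      ring
    rw [h2]
    have h3 : max 0 (Y - x) + (max 0 (Y - x)) ^ 2 / (2 * x) ≤ (max 0 Y) ^ 2 / (2 * x) := by
      rcases le_total Y x with h | h
      · rw [max_eq_left (by linarith : Y - x ≤ 0)]
        have : 0 ≤ (max 0 Y) ^ 2 / (2 * x) := by positivity
        simpa using this
      · rw [max_eq_right (by linarith : 0 ≤ Y - x), max_eq_right (by linarith : 0 ≤ Y)]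
        rw [← sub_nonneg]
        have : Y ^ 2 / (2 * x) - (Y - x + (Y - x) ^ 2 / (2 * x)) = x / 2 := by
          field_simp
          ring
        rw [this]
        positivity
    simp only [Nat.cast_zero, mul_zero, sub_zero]
    linarith

noncomputable def g (x y z : ℝ) : ℝ := max 0 (z * y) + (max 0 (z * y)) ^ 2 / (2 * x)

noncomputable def H (x y : ℝ) (n : ℕ) : ℝ :=
  (n : ℝ) * (n + 1) / 2 * y + (n : ℝ) * (n + 1) * (2 * n + 1) / 6 * (y ^ 2 / (2 * x))

lemma two (x y : ℝ) (hx : 0 < x) (hy : 0 < y) (K : ℕ) : ∀ n : ℕ,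
    ∑ c ∈ range K, g x y ((n : ℝ) - c) ≤ H x y n := by
  induction K with
  | zero =>
    intro n
    simp only [range_zero, sum_empty, H]
    positivity
  | succ K ih =>
    intro n
    rcases n with _ | n
    · have h1 : ∀ c ∈ range (K + 1), g x y (((0 : ℕ) : ℝ) - (c : ℝ)) = 0 := by
        intro c _
        have : (((0 : ℕ) : ℝ) - (c : ℝ)) * y ≤ 0 := by
          have hc : (0 : ℝ) ≤ c := by positivity
          have h2 := mul_nonneg hc hy.le
          simp only [Nat.cast_zero, zero_sub, neg_mul]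
          linarith
        unfold g
        rw [max_eq_left this]
        simp
      rw [sum_eq_zero h1]
      simp [H]
    · rw [sum_range_succ']
      have h2 : ∑ c ∈ range K, g x y (((n + 1 : ℕ) : ℝ) - ((c + 1 : ℕ) : ℝ)) =
          ∑ c ∈ range K, g x y ((n : ℝ) - c) := by
        refine sum_congr rfl fun c _ => ?_
        congr 1
        push_cast
        ring
      rw [h2]
      have h3 := ih n
      have h4 : g x y (((n + 1 : ℕ) : ℝ) - ((0 : ℕ) : ℝ)) =
          ((n : ℝ) + 1) * y + ((n : ℝ) + 1) ^ 2 * (y ^ 2 / (2 * x)) := by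
        unfold g
        have : 0 ≤ (((n + 1 : ℕ) : ℝ) - ((0 : ℕ) : ℝ)) * y := by
          push_cast
          have hn : (0 : ℝ) ≤ (n : ℝ) + 1 - 0 := by
            have : (0 : ℝ) ≤ n := by positivity
            linarith
          exact mul_nonneg hn hy.le
        rw [max_eq_right this]
        push_cast
        ring
      rw [h4]
      have h5 : H x y (n + 1) = H x y n + (((n : ℝ) + 1) * y +
          ((n : ℝ) + 1) ^ 2 * (y ^ 2 / (2 * x))) := by
        unfold H
        push_cast
        ring
      rw [h5]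
      linarith

lemma three (x y : ℝ) (m : ℕ) : ∑ k ∈ range m, H x y (k + 1) =
    y ^ 2 / (2 * x) * (m * (m + 1) ^ 2 * (m + 2) / 12) + y * (m * (m + 1) * (m + 2) / 6) := by
  induction m with
  | zero => simp
  | succ m ih =>
    rw [sum_range_succ, ih]
    unfold H
    push_cast
    ring

end Cost

theorem cost : StmtCost := by
  intro R _ f hf x y hx hy m
  classical
  set φ : ℕ × ℕ × ℕ → ℝ := fun p =>
    max 0 (m * y - (x * p.1 + y * ((p.2.1 : ℝ) + p.2.2))) with hφ
  have hφ0 : ∀ p, 0 ≤ φ p := fun p => le_max_left _ _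
  obtain ⟨A, hA⟩ := exists_nat_ge ((m : ℝ) * y / x)
  have hA' : (m : ℝ) * y ≤ x * A := by
    rw [div_le_iff₀ hx] at hA
    linarith
  set Bx : Finset (ℕ × ℕ × ℕ) := range A ×ˢ (range m ×ˢ range m) with hBx
  have hout : ∀ p, p ∉ Bx → φ p = 0 := by
    intro p hp
    rw [hφ]
    simp only
    apply max_eq_left
    have h1 : (0 : ℝ) ≤ p.1 := by positivity
    have h2 : (0 : ℝ) ≤ p.2.1 := by positivity
    have h3 : (0 : ℝ) ≤ p.2.2 := by positivity
    have h4 := mul_nonneg hx.le h1
    have h5 := mul_nonneg hy.le h2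
    have h6 := mul_nonneg hy.le h3
    have hp' : A ≤ p.1 ∨ m ≤ p.2.1 ∨ m ≤ p.2.2 := by
      by_contra hcon
      push Not at hcon
      apply hp
      rw [hBx, mem_product, mem_product]
      exact ⟨mem_range.2 hcon.1, mem_range.2 hcon.2.1, mem_range.2 hcon.2.2⟩
    rcases hp' with h | h | h
    · have h7 : (A : ℝ) ≤ p.1 := by exact_mod_cast h
      have h8 := mul_le_mul_of_nonneg_left h7 hx.le
      linarith
    · have h7 : (m : ℝ) ≤ p.2.1 := by exact_mod_cast h
      have h8 := mul_le_mul_of_nonneg_left h7 hy.le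
      linarith
    · have h7 : (m : ℝ) ≤ p.2.2 := by exact_mod_cast h
      have h8 := mul_le_mul_of_nonneg_left h7 hy.le
      linarith
  have hsum : ∑ r, φ (f r) ≤ ∑ p ∈ Bx, φ p := by
    have h1 : ∑ r, φ (f r) = ∑ p ∈ univ.image f, φ p := by
      rw [sum_image (fun a _ b _ h => hf h)]
    rw [h1]
    have h2 : ∑ p ∈ univ.image f, φ p = ∑ p ∈ (univ.image f).filter (fun p => p ∈ Bx), φ p := by
      rw [sum_filter]
      refine sum_congr rfl fun p _ => ?_
      by_cases hp : p ∈ Bx
      · rw [if_pos hp]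
      · rw [if_neg hp, hout p hp]
    rw [h2]
    refine sum_le_sum_of_subset_of_nonneg ?_ fun p _ _ => hφ0 p
    intro p hp
    exact (mem_filter.1 hp).2
  have hbox : ∑ p ∈ Bx, φ p ≤ y ^ 2 / (2 * x) * (m * (m + 1) ^ 2 * (m + 2) / 12) +
      y * (m * (m + 1) * (m + 2) / 6) := by
    rw [← Cost.three x y m, hBx, sum_product, sum_comm, sum_product]
    calc ∑ b ∈ range m, ∑ c ∈ range m, ∑ a ∈ range A, φ (a, b, c)
        ≤ ∑ b ∈ range m, ∑ c ∈ range m, Cost.g x y (((m - b : ℕ) : ℝ) - c) := by
          refine sum_le_sum fun b hb => sum_le_sum fun c _ => ?_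
          have hbm : b ≤ m := (mem_range.1 hb).le
          have h1 := Cost.one x hx A ((((m - b : ℕ) : ℝ) - c) * y)
          refine le_trans (le_of_eq ?_) h1
          refine sum_congr rfl fun a _ => ?_
          rw [hφ]
          simp only
          congr 1
          rw [Nat.cast_sub hbm]
          ring
      _ ≤ ∑ b ∈ range m, Cost.H x y (m - b) := by
          refine sum_le_sum fun b _ => ?_
          exact Cost.two x y hx hy m (m - b)
      _ = ∑ k ∈ range m, Cost.H x y (k + 1) := by
          rw [← sum_range_reflect]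
          refine sum_congr rfl fun k hk => ?_
          congr 1
          have := mem_range.1 hk
          omega
  have hfin : ∑ r : R, ((m : ℝ) * y - (x * (f r).1 + y * ((f r).2.1 + (f r).2.2))) ≤
      ∑ r, φ (f r) := sum_le_sum fun r _ => le_max_right _ _
  rw [sum_sub_distrib, sum_const, card_univ, nsmul_eq_mul] at hfin
  linarith

end GSL
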