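import Pool.Agent.Work.MP_327059_nt.Stmts

/-!
# Lattice points in a disc
-/

open Polynomial Filter Topology MeasureTheory Set
open scoped Pointwise

namespace GSL

/-- the unit disc in the plane -/
def Count.s : Set (Fin 2 → ℝ) := {x | x 0 ^ 2 + x 1 ^ 2 ≤ 1}

theorem Count.s_meas : MeasurableSet Count.s := by
  apply measurableSet_le
  · fun_prop
  · fun_prop

theorem Count.s_bdd : Bornology.IsBounded Count.s := by
  refine (Metric.isBounded_closedBall (x := (0 : Fin 2 → ℝ)) (r := 1)).subset ?_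
  intro x hx
  rw [mem_closedBall_zero_iff, pi_norm_le_iff_of_nonneg zero_le_one]
  have hx' : x 0 ^ 2 + x 1 ^ 2 ≤ 1 := hx
  intro i
  rw [Real.norm_eq_abs, abs_le_one_iff_mul_self_le_one]
  fin_cases i
  · show x 0 * x 0 ≤ 1
    nlinarith [sq_nonneg (x 1)]
  · show x 1 * x 1 ≤ 1
    nlinarith [sq_nonneg (x 0)]

theorem Count.norm_sq (z : ℂ) :
    (Complex.measurableEquivPi z 0) ^ 2 + (Complex.measurableEquivPi z 1) ^ 2 = ‖z‖ ^ 2 := by
  rw [Complex.measurableEquivPi_apply, ← Complex.normSq_eq_norm_sq, Complex.normSq_apply]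
  simp
  ring

theorem Count.s_frontier : volume (frontier Count.s) = 0 := by
  have h1 : frontier Count.s ⊆ {x : Fin 2 → ℝ | x 0 ^ 2 + x 1 ^ 2 = 1} :=
    frontier_le_subset_eq (by fun_prop) continuous_const
  refine measure_mono_null h1 ?_
  have hm : MeasurableSet {x : Fin 2 → ℝ | x 0 ^ 2 + x 1 ^ 2 = 1} := by
    apply measurableSet_eq_fun
    · fun_prop
    · fun_prop
  rw [← Complex.volume_preserving_equiv_pi.measure_preimage hm.nullMeasurableSet]
  have h2 : Complex.measurableEquivPi ⁻¹' {x : Fin 2 → ℝ | x 0 ^ 2 + x 1 ^ 2 = 1} =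
      Metric.sphere 0 1 := by
    ext z
    rw [mem_preimage, Set.mem_ofPred_eq, Count.norm_sq, mem_sphere_zero_iff_norm]
    constructor
    · intro h
      have h3 := norm_nonneg z
      nlinarith
    · intro h
      rw [h]
      norm_num
  rw [h2]
  exact Measure.addHaar_sphere _ _ _

theorem Count.disc_integral (g : ℝ → ℝ) :
    ∫ z in Metric.closedBall (0 : ℂ) 1, g ‖z‖ = 2 * (Real.pi * ∫ y in Ioc (0 : ℝ) 1, y * g y) := by
  have h := integral_fun_norm_addHaar (volume : Measure ℂ) ((Iic (1 : ℝ)).indicator g)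
  have h1 : ∫ z : ℂ, (Iic (1 : ℝ)).indicator g ‖z‖ =
      ∫ z in Metric.closedBall (0 : ℂ) 1, g ‖z‖ := by
    rw [← integral_indicator Metric.isClosed_closedBall.measurableSet]
    congr 1
    ext z
    by_cases hz : ‖z‖ ≤ 1
    · rw [indicator_of_mem (by exact hz), indicator_of_mem (by simpa using hz)]
    · rw [indicator_of_notMem (by exact hz), indicator_of_notMem (by simpa using hz)]
  have h2 : (volume : Measure ℂ).real (Metric.ball 0 1) = Real.pi := by
    rw [Measure.real, Complex.volume_ball]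
    simp
  have h3 : ∫ y in Ioi (0 : ℝ), y ^ (Module.finrank ℝ ℂ - 1) • (Iic (1 : ℝ)).indicator g y =
      ∫ y in Ioc (0 : ℝ) 1, y * g y := by
    rw [Complex.finrank_real_complex]
    have e : (fun y : ℝ => y ^ (2 - 1) • (Iic (1 : ℝ)).indicator g y) =
        (Iic (1 : ℝ)).indicator (fun y => y * g y) := by
      ext y
      by_cases hy : y ∈ Iic (1 : ℝ)
      · rw [indicator_of_mem hy, indicator_of_mem hy]
        simp
      · rw [indicator_of_notMem hy, indicator_of_notMem hy]
        simp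
    rw [e, setIntegral_indicator measurableSet_Iic]
    rfl
  rw [h1, h2, h3, Complex.finrank_real_complex] at h
  rw [h, nsmul_eq_mul, smul_eq_mul]
  norm_num

theorem Count.s_integral (F : (Fin 2 → ℝ) → ℝ) (g : ℝ → ℝ)
    (hFg : ∀ z, F (Complex.measurableEquivPi z) = g ‖z‖) :
    ∫ x in Count.s, F x = 2 * (Real.pi * ∫ y in Ioc (0 : ℝ) 1, y * g y) := by
  rw [← Count.disc_integral]
  have h1 : Complex.measurableEquivPi ⁻¹' Count.s = Metric.closedBall 0 1 := by
    ext z
    rw [mem_preimage]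
    show (Complex.measurableEquivPi z 0) ^ 2 + (Complex.measurableEquivPi z 1) ^ 2 ≤ 1 ↔ _
    rw [Count.norm_sq, mem_closedBall_zero_iff]
    exact sq_le_one_iff₀ (norm_nonneg z)
  rw [← h1]
  have := Complex.volume_preserving_equiv_pi.setIntegral_preimage_emb
    Complex.measurableEquivPi.measurableEmbedding F Count.s
  rw [← this]
  congr 1
  ext z
  exact hFg z

/-- the scaled lattice points -/
noncomputable def Count.emb (n : ℕ) (p : ℤ × ℤ) : Fin 2 → ℝ := ![p.1 / n, p.2 / n]

theorem Count.mem_circ (n : ℕ) (p : ℤ × ℤ) : p ∈ circ n ↔ p.1 ^ 2 + p.2 ^ 2 ≤ (n : ℤ) ^ 2 := by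
  unfold circ
  rw [Finset.mem_filter, Finset.mem_product, Finset.mem_Icc, Finset.mem_Icc]
  constructor
  · exact fun h => h.2
  · intro h
    refine ⟨⟨?_, ?_⟩, h⟩
    · refine abs_le.1 (abs_le_of_sq_le_sq ?_ (by positivity))
      nlinarith [sq_nonneg p.2]
    · refine abs_le.1 (abs_le_of_sq_le_sq ?_ (by positivity))
      nlinarith [sq_nonneg p.1]

theorem Count.set_eq (n : ℕ) (hn : 1 ≤ n) :
    (Count.s ∩ (n : ℝ)⁻¹ • (Submodule.span ℤ (Set.range (Pi.basisFun ℝ (Fin 2))) :
      Set (Fin 2 → ℝ))) = ((circ n).image (Count.emb n) : Finset (Fin 2 → ℝ)) := by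
  have hn0 : (0 : ℝ) < n := by exact_mod_cast hn
  ext x
  rw [mem_inter_iff, Set.mem_inv_smul_set_iff₀ hn0.ne', Finset.mem_coe, Finset.mem_image,
    SetLike.mem_coe, Module.Basis.mem_span_iff_repr_mem]
  constructor
  · rintro ⟨hx, hL⟩
    obtain ⟨a, ha⟩ := hL 0
    obtain ⟨b, hb⟩ := hL 1
    simp only [Pi.basisFun_repr, Pi.smul_apply, smul_eq_mul, algebraMap_int_eq,
      eq_intCast] at ha hb
    have hxa : x 0 = a / n := by rw [ha]; field_simp
    have hxb : x 1 = b / n := by rw [hb]; field_simp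
    refine ⟨(a, b), ?_, ?_⟩
    · rw [Count.mem_circ]
      have hx' : x 0 ^ 2 + x 1 ^ 2 ≤ 1 := hx
      rw [hxa, hxb, div_pow, div_pow, ← add_div, div_le_one (by positivity)] at hx'
      exact_mod_cast hx'
    · ext i
      fin_cases i
      · exact hxa.symm
      · exact hxb.symm
  · rintro ⟨⟨a, b⟩, hp, rfl⟩
    rw [Count.mem_circ] at hp
    refine ⟨?_, ?_⟩
    · show (a / n : ℝ) ^ 2 + (b / n : ℝ) ^ 2 ≤ 1
      rw [div_pow, div_pow, ← add_div, div_le_one (by positivity)]
      exact_mod_cast hp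
    · intro i
      simp only [Pi.basisFun_repr, Pi.smul_apply, smul_eq_mul, algebraMap_int_eq]
      fin_cases i
      · refine ⟨a, ?_⟩
        show (a : ℝ) = n * (a / n)
        field_simp
      · refine ⟨b, ?_⟩
        show (b : ℝ) = n * (b / n)
        field_simp

theorem Count.emb_inj (n : ℕ) (hn : 1 ≤ n) : Function.Injective (Count.emb n) := by
  have hn0 : (n : ℝ) ≠ 0 := by exact_mod_cast (by omega : n ≠ 0)
  rintro ⟨a, b⟩ ⟨c, d⟩ h
  have h0 : (a / n : ℝ) = c / n := congrFun h 0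
  have h1 : (b / n : ℝ) = d / n := congrFun h 1
  have h2 : (a : ℝ) = c := by field_simp at h0; exact h0
  have h3 : (b : ℝ) = d := by field_simp at h1; exact h1
  rw [Prod.mk.injEq]
  exact ⟨by exact_mod_cast h2, by exact_mod_cast h3⟩

theorem Count.main (F : (Fin 2 → ℝ) → ℝ) (hF : Continuous F) (g : ℝ → ℝ)
    (hFg : ∀ z, F (Complex.measurableEquivPi z) = g ‖z‖) :
    Tendsto (fun n : ℕ => (∑ p ∈ circ n, F (Count.emb n p)) / (n : ℝ) ^ 2) atTop
      (𝓝 (2 * (Real.pi * ∫ y in Ioc (0 : ℝ) 1, y * g y))) := by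
  rw [← Count.s_integral F g hFg]
  have h := tendsto_tsum_div_pow_atTop_integral Count.s F hF Count.s_bdd Count.s_meas
    Count.s_frontier
  refine h.congr' ?_
  filter_upwards [eventually_ge_atTop 1] with n hn
  rw [Fintype.card_fin]
  congr 1
  rw [tsum_congr_set_coe F (Count.set_eq n hn), Finset.tsum_subtype',
    Finset.sum_image fun a _ b _ hab => Count.emb_inj n hn hab]

theorem count : StmtCount := by
  constructor
  · have h := Count.main (fun _ => 1) continuous_const (fun _ => 1) fun _ => rfl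
    have e : 2 * (Real.pi * ∫ y in Ioc (0 : ℝ) 1, y * 1) = Real.pi := by
      rw [← intervalIntegral.integral_of_le zero_le_one]
      simp
      ring
    rw [e] at h
    refine h.congr fun n => ?_
    simp
  · have h := Count.main (fun x => x 0 ^ 2 + x 1 ^ 2) (by fun_prop) (fun r => r ^ 2)
      fun z => Count.norm_sq z
    have e : 2 * (Real.pi * ∫ y in Ioc (0 : ℝ) 1, y * y ^ 2) = Real.pi / 2 := by
      rw [← intervalIntegral.integral_of_le zero_le_one]
      have : (fun y : ℝ => y * y ^ 2) = fun y => y ^ 3 := by ext y; ring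
      rw [this, integral_pow]
      norm_num
      ring
    rw [e] at h
    refine h.congr' ?_
    filter_upwards [eventually_ge_atTop 1] with n hn
    have hn0 : (n : ℝ) ≠ 0 := by exact_mod_cast (by omega : n ≠ 0)
    have e2 : ∀ p : ℤ × ℤ, (Count.emb n p 0) ^ 2 + (Count.emb n p 1) ^ 2 =
        ((p.1 : ℝ) ^ 2 + (p.2 : ℝ) ^ 2) / (n : ℝ) ^ 2 := by
      intro p
      show (p.1 / n : ℝ) ^ 2 + (p.2 / n : ℝ) ^ 2 = _
      rw [div_pow, div_pow, add_div]
    simp only [e2]
    rw [← Finset.sum_div, div_div, ← pow_add]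

end GSL
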