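import Pool.Agent.Work.MP_327059_nt.Stmts

/-!
# MP_327059_nt : determinants of matrices whose entries are sums over triples
-/

open Polynomial Filter Topology

namespace GSL

namespace Det

/-- The cost of a triple. -/
noncomputable def cost (x y : ℝ) (m : ℕ × ℕ × ℕ) : ℝ := x * m.1 + y * (m.2.1 + m.2.2)

/-- Expansion of the determinant of the truncated matrix. -/
theorem det_expand {R : Type} [Fintype R] [DecidableEq R] (P Q : R → ℕ × ℕ × ℕ → ℂ)
    (F : Finset (ℕ × ℕ × ℕ)) :
    Matrix.det (Matrix.of fun s r : R => ∑ m ∈ F, P r m * Q s m) =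
      ∑ f ∈ Fintype.piFinset (fun _ : R => F),
        Matrix.det (Matrix.of fun s r : R => P r (f r) * Q s (f r)) := by
  simp only [Matrix.det_apply', Matrix.of_apply]
  rw [Finset.sum_comm]
  refine Finset.sum_congr rfl fun π _ => ?_
  rw [Finset.prod_univ_sum, Finset.mul_sum]

theorem det_zero {R : Type} [Fintype R] [DecidableEq R] (P Q : R → ℕ × ℕ × ℕ → ℂ)
    (f : R → ℕ × ℕ × ℕ) (hf : ¬ Function.Injective f) :
    Matrix.det (Matrix.of fun s r : R => P r (f r) * Q s (f r)) = 0 := by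
  have h1 : Matrix.det (Matrix.of fun s r : R => P r (f r) * Q s (f r)) =
      (∏ r, P r (f r)) * Matrix.det (Matrix.of fun s r : R => Q s (f r)) := by
    have := Matrix.det_mul_row (fun r : R => P r (f r)) (Matrix.of fun s r : R => Q s (f r))
    simpa using this
  rw [h1]
  have h2 : ∃ i j, f i = f j ∧ i ≠ j := by
    unfold Function.Injective at hf
    push Not at hf
    exact hf
  obtain ⟨i, j, hij, hne⟩ := h2
  rw [Matrix.det_zero_of_column_eq hne, mul_zero]
  intro k
  simp [hij]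

theorem norm_det_le {R : Type} [Fintype R] [DecidableEq R] (P Q : R → ℕ × ℕ × ℕ → ℂ)
    (h g : R → ℝ) (x y : ℝ) (hb : ∀ r s m, ‖P r m‖ * ‖Q s m‖ ≤ h r * g s *
      Real.exp (-(cost x y m))) (f : R → ℕ × ℕ × ℕ) :
    ‖Matrix.det (Matrix.of fun s r : R => P r (f r) * Q s (f r))‖ ≤
      (Fintype.card R).factorial * (∏ r, h r) * (∏ r, g r) *
        Real.exp (-(∑ r, cost x y (f r))) := by
  rw [Matrix.det_apply']
  refine (norm_sum_le _ _).trans ?_
  have h1 : ∀ π : Equiv.Perm R, ‖((Equiv.Perm.sign π : ℤ) : ℂ) *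
      ∏ i, (Matrix.of fun s r : R => P r (f r) * Q s (f r)) (π i) i‖ ≤
      (∏ r, h r) * (∏ r, g r) * Real.exp (-(∑ r, cost x y (f r))) := by
    intro π
    have hs : ‖((Equiv.Perm.sign π : ℤ) : ℂ)‖ = 1 := by
      rcases Int.units_eq_one_or (Equiv.Perm.sign π) with h | h <;> simp [h]
    rw [norm_mul, hs, one_mul, norm_prod]
    have h2 : ∏ i, ‖(Matrix.of fun s r : R => P r (f r) * Q s (f r)) (π i) i‖ ≤
        ∏ i, (h i * g (π i) * Real.exp (-(cost x y (f i)))) := by
      refine Finset.prod_le_prod (fun i _ => norm_nonneg _) fun i _ => ?_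
      simp only [Matrix.of_apply, norm_mul]
      exact hb i (π i) (f i)
    refine h2.trans (le_of_eq ?_)
    rw [Finset.prod_mul_distrib, Finset.prod_mul_distrib, Equiv.prod_comp π g,
      ← Real.exp_sum, Finset.sum_neg_distrib]
  refine (Finset.sum_le_sum fun π _ => h1 π).trans (le_of_eq ?_)
  rw [Finset.sum_const, Finset.card_univ, Fintype.card_perm, nsmul_eq_mul]
  ring

/-- Geometric series. -/
theorem geo (q : ℝ) (h0 : 0 ≤ q) (h1 : q < 1) (n : ℕ) :
    ∑ i ∈ Finset.range n, q ^ i ≤ (1 - q)⁻¹ := by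
  have hs := summable_geometric_of_lt_one h0 h1
  have := hs.sum_le_tsum (Finset.range n) (fun i _ => pow_nonneg h0 i)
  rwa [tsum_geometric_of_lt_one h0 h1] at this

theorem sum_exp_le (x y : ℝ) (hx : 0 < x) (hy : 0 < y) (F : Finset (ℕ × ℕ × ℕ)) :
    ∑ m ∈ F, Real.exp (-(cost x y m)) ≤
      (1 - Real.exp (-x))⁻¹ * ((1 - Real.exp (-y))⁻¹) ^ 2 := by
  obtain ⟨N, hN⟩ : ∃ N, F ⊆ Finset.range N ×ˢ (Finset.range N ×ˢ Finset.range N) := by
    refine ⟨F.sup (fun m => m.1 + m.2.1 + m.2.2 + 1), fun m hm => ?_⟩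
    have := Finset.le_sup (f := fun m : ℕ × ℕ × ℕ => m.1 + m.2.1 + m.2.2 + 1) hm
    simp only [Finset.mem_product, Finset.mem_range]
    omega
  refine (Finset.sum_le_sum_of_subset_of_nonneg hN fun m _ _ => (Real.exp_pos _).le).trans ?_
  have h1 : ∀ m : ℕ × ℕ × ℕ, Real.exp (-(cost x y m)) =
      Real.exp (-x) ^ m.1 * (Real.exp (-y) ^ m.2.1 * Real.exp (-y) ^ m.2.2) := by
    intro m
    rw [← Real.exp_nat_mul, ← Real.exp_nat_mul, ← Real.exp_nat_mul, ← Real.exp_add,
      ← Real.exp_add]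
    congr 1
    unfold cost
    ring
  simp only [h1]
  rw [Finset.sum_product]
  have hx1 : Real.exp (-x) < 1 := by rw [Real.exp_lt_one_iff]; linarith
  have hy1 : Real.exp (-y) < 1 := by rw [Real.exp_lt_one_iff]; linarith
  have hgx := geo _ (Real.exp_pos (-x)).le hx1 N
  have hgy := geo _ (Real.exp_pos (-y)).le hy1 N
  have hnx : 0 ≤ ∑ i ∈ Finset.range N, Real.exp (-x) ^ i :=
    Finset.sum_nonneg fun i _ => pow_nonneg (Real.exp_pos _).le i
  have hny : 0 ≤ ∑ i ∈ Finset.range N, Real.exp (-y) ^ i :=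
    Finset.sum_nonneg fun i _ => pow_nonneg (Real.exp_pos _).le i
  have h2 : ∑ a ∈ Finset.range N, ∑ b ∈ Finset.range N ×ˢ Finset.range N,
      Real.exp (-x) ^ a * (Real.exp (-y) ^ b.1 * Real.exp (-y) ^ b.2) =
      (∑ i ∈ Finset.range N, Real.exp (-x) ^ i) *
        ((∑ i ∈ Finset.range N, Real.exp (-y) ^ i) *
          (∑ i ∈ Finset.range N, Real.exp (-y) ^ i)) := by
    rw [Finset.sum_mul]
    refine Finset.sum_congr rfl fun a _ => ?_
    rw [Finset.sum_product, Finset.sum_mul_sum, Finset.mul_sum]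
    refine Finset.sum_congr rfl fun b _ => ?_
    rw [Finset.mul_sum]
  rw [h2, pow_two]
  have hp : 0 ≤ (1 - Real.exp (-y))⁻¹ := inv_nonneg.2 (by linarith)
  exact mul_le_mul hgx (mul_le_mul hgy hgy hny hp) (mul_nonneg hny hny)
    (inv_nonneg.2 (by linarith))

end Det

open Det in
theorem det : StmtDet := by
  intro R _ _ M P Q hM h g x y hx hy hh hg hb θ K hθ hθ1 hK
  have hb' : ∀ r s m, ‖P r m‖ * ‖Q s m‖ ≤ h r * g s * Real.exp (-(cost x y m)) := hb
  -- truncated matrices
  have hlim : Tendsto (fun F : Finset (ℕ × ℕ × ℕ) =>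
      Matrix.det (Matrix.of fun s r : R => ∑ m ∈ F, P r m * Q s m)) atTop (𝓝 M.det) := by
    have h1 : Tendsto (fun F : Finset (ℕ × ℕ × ℕ) =>
        (Matrix.of fun s r : R => ∑ m ∈ F, P r m * Q s m)) atTop (𝓝 M) := by
      refine tendsto_pi_nhds.2 fun s => tendsto_pi_nhds.2 fun r => ?_
      exact hM s r
    exact ((continuous_id.matrix_det).tendsto M).comp h1
  refine le_of_tendsto hlim.norm (Eventually.of_forall fun F => ?_)
  rw [det_expand]
  refine (norm_sum_le _ _).trans ?_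
  have hC : 0 ≤ ((Fintype.card R).factorial : ℝ) * (∏ r, h r) * (∏ r, g r) :=
    mul_nonneg (mul_nonneg (Nat.cast_nonneg _) (Finset.prod_nonneg fun r _ => hh r))
      (Finset.prod_nonneg fun r _ => hg r)
  have hterm : ∀ f : R → ℕ × ℕ × ℕ,
      ‖Matrix.det (Matrix.of fun s r : R => P r (f r) * Q s (f r))‖ ≤
        (Fintype.card R).factorial * (∏ r, h r) * (∏ r, g r) *
        Real.exp (-((1 - θ) * K)) * ∏ r, Real.exp (-(cost (θ * x) (θ * y) (f r))) := by
    intro f
    by_cases hf : Function.Injective f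
    · refine (norm_det_le P Q h g x y hb' f).trans ?_
      rw [mul_assoc _ (Real.exp (-((1 - θ) * K)))]
      refine mul_le_mul_of_nonneg_left ?_ hC
      rw [← Real.exp_sum, ← Real.exp_add]
      apply Real.exp_le_exp.2
      have h1 : K ≤ ∑ r, cost x y (f r) := hK f hf
      have h2 : ∑ r, -cost (θ * x) (θ * y) (f r) = -(θ * ∑ r, cost x y (f r)) := by
        rw [Finset.sum_neg_distrib, Finset.mul_sum]
        congr 1
        refine Finset.sum_congr rfl fun r _ => ?_
        unfold cost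
        ring
      rw [h2]
      nlinarith
    · rw [det_zero P Q f hf, norm_zero]
      exact mul_nonneg (mul_nonneg hC (Real.exp_pos _).le)
        (Finset.prod_nonneg fun r _ => (Real.exp_pos _).le)
  refine (Finset.sum_le_sum fun f _ => hterm f).trans ?_
  rw [← Finset.mul_sum, ← Finset.prod_univ_sum (fun _ : R => F)
    (fun _ m => Real.exp (-(cost (θ * x) (θ * y) m))), Finset.prod_const, Finset.card_univ]
  refine mul_le_mul_of_nonneg_left ?_ (mul_nonneg hC (Real.exp_pos _).le)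
  exact pow_le_pow_left₀ (Finset.sum_nonneg fun m _ => (Real.exp_pos _).le)
    (sum_exp_le _ _ (mul_pos hθ hx) (mul_pos hθ hy) F) _

end GSL
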