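import Pool.Agent.Work.MP_327059_nt.Stmts

/-!
# MP_327059_nt, item Lower: the lower bound for the energy
-/

namespace GSL

namespace Lower

/-- The points `4^(-j)`. -/
noncomputable def zz : Fin 7 → ℝ := ![1 / 4096, 1 / 1024, 1 / 256, 1 / 64, 1 / 16, 1 / 4, 1]

/-- The weights. -/
noncomputable def cc : Fin 7 → ℝ :=
  ![11021 / 1024, 16795 / 4096, 15617 / 6144, 211 / 128, 29 / 32, 29 / 48, 1 / 4]

/-- The degrees. -/
def mm : Fin 7 → ℕ := ![28, 17, 11, 6, 4, 2, 1]

lemma cc_nonneg (j : Fin 7) : 0 ≤ cc j := by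
  fin_cases j <;> simp [cc] <;> norm_num

lemma zz_mem (j : Fin 7) : 1 / 4096 ≤ zz j ∧ zz j ≤ 1 := by
  fin_cases j <;> simp [zz] <;> norm_num

lemma mm_mem (j : Fin 7) : 1 ≤ mm j ∧ mm j ≤ 30 := by
  fin_cases j <;> simp [mm]

lemma sum_cc : ∑ j, cc j ≤ 209 / 10 := by
  simp [Fin.sum_univ_succ, cc]
  norm_num

lemma sum_cF : ∑ j, cc j * Fj (mm j) (zz j) = 12861144747 / 17179869184 := by
  simp [Fin.sum_univ_succ, cc, zz, mm, Fj]
  norm_num

lemma sum_cczz : ∑ j, ∑ k, cc j * cc k * min (zz j) (zz k) = 12861144747 / 17179869184 := by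
  simp [Fin.sum_univ_succ, cc, zz]
  norm_num [min_def]

end Lower

open Lower in
/-- Item Lower. -/
theorem lower (hP : StmtPSD) : StmtLower := by
  intro N c L V t₀ ε hc hL hV ht0 htV hNt hε hF
  set u : Fin N → ℝ := fun r => max 0 (c r - t₀) with hu
  have hz0 : ∀ j, 0 ≤ zz j * V - t₀ := by
    intro j
    have h1 := (zz_mem j).1
    have h2 : 1 / 4096 * V ≤ zz j * V := mul_le_mul_of_nonneg_right h1 hV.le
    linarith
  -- the quadratic form
  have hq := hP (Fin N ⊕ Fin 7) (Sum.elim (fun _ => 1) (fun j => -(L * cc j)))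
    (Sum.elim u (fun j => zz j * V - t₀)) (by
      rintro (r | j)
      · exact le_max_left _ _
      · exact hz0 j)
  simp only [Fintype.sum_sum_type, Sum.elim_inl, Sum.elim_inr, Finset.sum_add_distrib, one_mul,
    mul_one] at hq
  have e1 : ∑ r : Fin N, ∑ j : Fin 7, -(L * cc j) * min (u r) (zz j * V - t₀) =
      -(L * ∑ j, cc j * ∑ r, min (u r) (zz j * V - t₀)) := by
    rw [Finset.sum_comm, Finset.mul_sum, ← Finset.sum_neg_distrib]
    refine Finset.sum_congr rfl fun j _ => ?_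
    rw [← Finset.mul_sum]; ring
  have e2 : ∑ j : Fin 7, ∑ r : Fin N, -(L * cc j) * min (zz j * V - t₀) (u r) =
      -(L * ∑ j, cc j * ∑ r, min (u r) (zz j * V - t₀)) := by
    rw [Finset.mul_sum, ← Finset.sum_neg_distrib]
    refine Finset.sum_congr rfl fun j _ => ?_
    rw [← Finset.mul_sum, Finset.sum_congr rfl fun r _ => min_comm (zz j * V - t₀) (u r)]; ring
  have e3 : ∑ j : Fin 7, ∑ k : Fin 7, -(L * cc j) * -(L * cc k) *
      min (zz j * V - t₀) (zz k * V - t₀) ≤ L ^ 2 * V * (12861144747 / 17179869184) := by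
    rw [← sum_cczz, Finset.mul_sum]
    refine Finset.sum_le_sum fun j _ => ?_
    rw [Finset.mul_sum]
    refine Finset.sum_le_sum fun k _ => ?_
    have h1 : min (zz j * V - t₀) (zz k * V - t₀) ≤ min (zz j) (zz k) * V := by
      rw [min_mul_of_nonneg _ _ hV.le]
      exact min_le_min (by linarith) (by linarith)
    have h2 : 0 ≤ -(L * cc j) * -(L * cc k) := by
      rw [neg_mul_neg]
      exact mul_nonneg (mul_nonneg hL.le (cc_nonneg j)) (mul_nonneg hL.le (cc_nonneg k))
    calc -(L * cc j) * -(L * cc k) * min (zz j * V - t₀) (zz k * V - t₀)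
        ≤ -(L * cc j) * -(L * cc k) * (min (zz j) (zz k) * V) := mul_le_mul_of_nonneg_left h1 h2
      _ = L ^ 2 * V * (cc j * cc k * min (zz j) (zz k)) := by ring
  -- the linear terms
  have e4 : ∀ j, (Fj (mm j) (zz j) - 2 * ε) * (L * V) ≤ ∑ r, min (u r) (zz j * V - t₀) := by
    intro j
    have h1 := hF (zz j) (by have := (zz_mem j).1; linarith) (zz_mem j).2 (mm j) (mm_mem j).1
      (mm_mem j).2
    have h2 : ∑ r, (min (zz j * V) (c r) - t₀) ≤ ∑ r, min (u r) (zz j * V - t₀) := by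
      refine Finset.sum_le_sum fun r _ => ?_
      refine le_min ?_ ?_
      · exact le_trans (by linarith [min_le_right (zz j * V) (c r)]) (le_max_right 0 (c r - t₀))
      · linarith [min_le_left (zz j * V) (c r)]
    rw [Finset.sum_sub_distrib, Finset.sum_const, Finset.card_univ, Fintype.card_fin,
      nsmul_eq_mul] at h2
    nlinarith
  have e5 : ∑ j, cc j * ((Fj (mm j) (zz j) - 2 * ε) * (L * V)) ≤
      ∑ j, cc j * ∑ r, min (u r) (zz j * V - t₀) :=
    Finset.sum_le_sum fun j _ => mul_le_mul_of_nonneg_left (e4 j) (cc_nonneg j)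
  have e6 : ∑ j, cc j * ((Fj (mm j) (zz j) - 2 * ε) * (L * V)) =
      (12861144747 / 17179869184 - 2 * ε * ∑ j, cc j) * (L * V) := by
    rw [← sum_cF, Finset.mul_sum, ← Finset.sum_sub_distrib, Finset.sum_mul]
    exact Finset.sum_congr rfl fun j _ => by ring
  rw [e6] at e5
  rw [e1, e2] at hq
  have e7 : ∑ j, cc j ≤ 209 / 10 := sum_cc
  have hLV : 0 < L * V := mul_pos hL hV
  have e8 : (12861144747 / 17179869184 - 2 * ε * (209 / 10)) * (L * V) ≤
      ∑ j, cc j * ∑ r, min (u r) (zz j * V - t₀) := by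
    refine le_trans (mul_le_mul_of_nonneg_right ?_ hLV.le) e5
    nlinarith
  have e9 := mul_le_mul_of_nonneg_left e8 hL.le
  have e10 : 0 < L ^ 2 * V := by positivity
  have e11 : 0 < ε * (L ^ 2 * V) := mul_pos hε e10
  nlinarith

end GSL
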