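import Pool.Agent.Work.MP_327059_nt.Bd.B05
import Pool.Agent.Work.MP_327059_nt.Cost
import Pool.Agent.Work.MP_327059_nt.Count
import Pool.Agent.Work.MP_327059_nt.Det
import Pool.Agent.Work.MP_327059_nt.E1
import Pool.Agent.Work.MP_327059_nt.Bdx.B05
import Pool.Agent.Work.MP_327059_nt.Bdx.B01
import Pool.Agent.Work.MP_327059_nt.Bd.B14
import Pool.Agent.Work.MP_327059_nt.Bd.B07
import Pool.Agent.Work.MP_327059_nt.Lower

namespace GSL

theorem hField : StmtField := field
theorem hDisc : StmtDisc := disc ded hField
theorem hNG : StmtNG := ng hField
theorem hLiou : StmtLiou := liou ded hField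
theorem hSuper : StmtSuper := super hField
theorem hFactor : StmtFactor := factor hField
theorem hUp : StmtUp := up hDisc
theorem hClose : StmtClose := close hLiou lone
theorem hUpper : StmtUpper := upper hNG hFactor hSuper hUp hClose
theorem hLower : StmtLower := lower psd
theorem hFinal : StmtFinal := final hField lone jen hUpper hLower
theorem hAlg : StmtAlg := alg hField
theorem hLat : StmtLat := lat count
theorem hOT : StmtOT := ot count
theorem hHeight : StmtHeight := height lone count
theorem hE0 : StmtE0 := ezero eval near det cost exp expbd
theorem hE1 : StmtE1 := eone hE0 hHeight lone count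
theorem hE2 : StmtE2 := etwo hE0 count
theorem hHermLat : StmtHermLat := hermlat herm hLat
theorem hDiff : StmtDiff := diff near
theorem hNV : StmtNV := nv count eval rank hDiff hHermLat interp coef
theorem hFamS : StmtFamS := fams hOT hHeight int hE1 hE2 hNV
theorem hIface : StmtIface := iface hFamS sel

theorem main : StmtMain := main_of hAlg hIface hFinal

end GSL
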