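import Mathlib

/-!
# MP_327059_nt : definitions for `log α ∉ ℚ(β, α^β)`, `β` a non-real quadratic integer
-/

open Polynomial

namespace GSL

/-- Non-real quadratic algebraic integers. -/
structure IQ (β : ℂ) : Prop where
  quad : ∃ t n : ℤ, β ^ 2 = t * β - n
  im : β.im ≠ 0

/-- The order `ℤ[β]`. -/
def Ob (β : ℂ) : Set ℂ := {x | ∃ a b : ℤ, x = a + b * β}

/-- The field `ℚ(β)` as a set. -/
def Kb (β : ℂ) : Set ℂ := {x | ∃ u v : ℚ, x = u + v * β}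

/-- Polynomials with coefficients in `ℤ[β]`. -/
def PolyO (β : ℂ) (P : ℂ[X]) : Prop := ∀ i, P.coeff i ∈ Ob β

/-- The field `ℚ(β)`. -/
noncomputable abbrev Fb (β : ℂ) : IntermediateField ℚ ℂ := IntermediateField.adjoin ℚ {β}

/-- Sum of the absolute values of the coefficients. -/
noncomputable def l1 (P : ℂ[X]) : ℝ := P.sum fun _ a => ‖a‖

/-- Closeness of `x` to `Y` (junk value `0` for `x = Y`). -/
noncomputable def cl (Y x : ℂ) : ℝ := max 0 (-Real.log ‖x - Y‖)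

/-- A polynomial over `ℚ(β)` as a complex polynomial. -/
noncomputable def toC {β : ℂ} (Q : (Fb β)[X]) : ℂ[X] := Q.map (algebraMap (Fb β) ℂ)

/-- `g` is the primitive integer polynomial proportional to `Q * conj Q`. -/
structure IsNG {β : ℂ} (Q : (Fb β)[X]) (g : ℤ[X]) : Prop where
  prim : g.IsPrimitive
  pos : 0 < g.leadingCoeff
  eq : g.map (Int.castRingHom ℂ) =
    C (g.leadingCoeff : ℂ) * (toC Q * (toC Q).map (starRingEnd ℂ))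

/-- The (logarithmic) size of `Q`: half of `log` of the leading coefficient of `g` plus the sum
of `log⁺` over the roots. -/
noncomputable def ht {β : ℂ} (Q : (Fb β)[X]) (g : ℤ[X]) : ℝ :=
  1 / 2 * Real.log g.leadingCoeff + ((toC Q).roots.map fun x => Real.posLog ‖x‖).sum

/-- The sum of the closeness of all roots of `Q`. -/
noncomputable def wQ {β : ℂ} (Y : ℂ) (Q : (Fb β)[X]) : ℝ := ((toC Q).roots.map (cl Y)).sum

/-- `F_m(z) = m z - z² m (m+1)² (m+2) / 24`. -/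
noncomputable def Fj (m : ℕ) (z : ℝ) : ℝ := m * z - z ^ 2 * (m * (m + 1) ^ 2 * (m + 2)) / 24

/-- The families of small polynomials. -/
structure FamG (β Y : ℂ) (ε δ σ V L : ℝ) (D : Set ℂ[X]) : Prop where
  coeff : ∀ P ∈ D, PolyO β P
  deg : ∀ P ∈ D, (P.natDegree : ℝ) ≤ (1 + ε) * L * δ
  height : ∀ P ∈ D, l1 P ≤ Real.exp ((1 + ε) * L * σ)
  E1 : ∀ P ∈ D, ∀ s : ℝ, 0 ≤ s → s ≤ (1 - ε) * V → ∀ y : ℂ, ‖y - Y‖ ≤ Real.exp (-s) →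
    ‖P.eval y‖ ≤ Real.exp (L * ((1 + ε) * σ + ε * s) - L * s / 2)
  E2 : ∀ P ∈ D, ∀ z : ℝ, 1 / 5000 ≤ z → z ≤ 1 → ∀ m : ℕ, 1 ≤ m → m ≤ 30 →
    ∀ y : ℂ, ‖y - Y‖ ≤ Real.exp (-(z * V)) → ‖P.eval y‖ ≤ Real.exp (-((Fj m z - ε) * (L * V)))
  NV : ∀ γ : ℂ, ‖γ - Y‖ ≤ Real.exp (-((1 + ε) * V)) → ∃ P ∈ D, P.eval γ ≠ 0

/-- The output of the analytic part: families for all large `V` and all `ρ = σ/δ` in a range. -/
def Iface (β Y : ℂ) : Prop :=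
  ∀ ε : ℝ, 0 < ε → ε < 1 → ∃ C c V₀ : ℝ, 0 < C ∧ 0 < c ∧ 1 < V₀ ∧ ∀ V ρ : ℝ, V₀ ≤ V → C ≤ ρ →
    ρ ≤ c * Real.log V → ∃ (L : ℝ) (D : Set ℂ[X]), 1 ≤ L ∧
      FamG β Y ε (Real.sqrt (V / (2 * Real.pi * ρ))) (Real.sqrt (V * ρ / (2 * Real.pi))) V L D

/-! ### The interpolation determinants -/

/-- The disc of radius `S` in `ℤ²`. -/
noncomputable def circ (S : ℕ) : Finset (ℤ × ℤ) :=
  ((Finset.Icc (-(S : ℤ)) S) ×ˢ (Finset.Icc (-(S : ℤ)) S)).filter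
    fun p => p.1 ^ 2 + p.2 ^ 2 ≤ (S : ℤ) ^ 2

/-- Index sets of rows and columns. -/
abbrev Ix (S T : ℕ) : Type := Fin T × {p : ℤ × ℤ // p ∈ circ S}

/-- The frequency `μ + ν β`. -/
noncomputable def wv (β : ℂ) (p : ℤ × ℤ) : ℂ := p.1 + p.2 * β

/-- The point `(a' - t b) + b β` of `q = (b, a')`. -/
noncomputable def zv (t : ℤ) (β : ℂ) (q : ℤ × ℤ) : ℂ := (q.2 - t * q.1) + q.1 * β

/-- `wv p * zv q = Af p q + Bf p q * β`. -/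
def Bf (p q : ℤ × ℤ) : ℤ := p.1 * q.1 + p.2 * q.2

/-- See `Bf`. -/
def Af (t n : ℤ) (p q : ℤ × ℤ) : ℤ := p.1 * (q.2 - t * q.1) - n * p.2 * q.1

/-- The data: `β² = t β - n`, `e^l = a₁ / a₂`, `l = B₀(Y) / A₀(Y)` with `Y = e^{β l}`. -/
structure Dat where
  β : ℂ
  l : ℂ
  t : ℤ
  n : ℤ
  a₁ : ℂ
  a₂ : ℂ
  A₀ : ℂ[X]
  B₀ : ℂ[X]
  quad : β ^ 2 = t * β - n
  im : β.im ≠ 0
  l_ne : l ≠ 0
  a₁_mem : a₁ ∈ Ob β
  a₂_mem : a₂ ∈ Ob β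
  a₁_ne : a₁ ≠ 0
  a₂_ne : a₂ ≠ 0
  exp_l : Complex.exp l = a₁ / a₂
  A₀_mem : PolyO β A₀
  B₀_mem : PolyO β B₀
  A₀_ne : A₀.eval (Complex.exp (β * l)) ≠ 0
  l_eq : l = B₀.eval (Complex.exp (β * l)) / A₀.eval (Complex.exp (β * l))

/-- `Y = e^{β l}`. -/
noncomputable def Dat.Y (D : Dat) : ℂ := Complex.exp (D.β * D.l)

/-- The number `D^τ(T₀^λ T^w)` at the point of `ζ`, without the factor `χ(w ζ)`:
`∑ₖ C(τ,k) (λ)ₖ ζ^(λ-k) (w X)^(τ-k)`. -/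
noncomputable def ent0 (X w ζ : ℂ) (lam tau : ℕ) : ℂ :=
  ∑ k ∈ Finset.range (tau + 1), (tau.choose k : ℂ) * (lam.descFactorial k : ℂ) *
    ζ ^ (lam - k) * (w * X) ^ (tau - k)

/-- The entries of the matrix as functions of `X`, `Y`. -/
noncomputable def Dat.ent (D : Dat) (X Y : ℂ) {S L₀ T : ℕ} (r : Ix S L₀) (s : Ix S T) : ℂ :=
  ent0 X (wv D.β r.2.1) (zv D.t D.β s.2.1) r.1 s.1 *
    ((D.a₁ / D.a₂) ^ (Af D.t D.n r.2.1 s.2.1) * Y ^ (Bf r.2.1 s.2.1))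

/-- The polynomial entries. -/
noncomputable def Dat.cp (D : Dat) {S L₀ T : ℕ} (r : Ix S L₀) (s : Ix S T) : ℂ[X] :=
  ∑ k ∈ Finset.range ((s.1 : ℕ) + 1),
    C (((s.1 : ℕ).choose k : ℂ) * ((r.1 : ℕ).descFactorial k : ℂ) *
      zv D.t D.β s.2.1 ^ ((r.1 : ℕ) - k) * wv D.β r.2.1 ^ ((s.1 : ℕ) - k)) *
      D.B₀ ^ ((s.1 : ℕ) - k) * D.A₀ ^ k

/-- The determinant as a polynomial; `e` chooses the columns, `OT` and `AT` bound the exponents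
of `Y` and `α`. -/
noncomputable def Dat.DP (D : Dat) {S L₀ T : ℕ} (e : Ix S L₀ → Ix S T) (OT AT : ℕ) : ℂ[X] :=
  ∑ π : Equiv.Perm (Ix S L₀), C (((Equiv.Perm.sign π : ℤ)) : ℂ) * (∏ r, D.cp r (e (π r))) *
    X ^ ((OT : ℤ) + ∑ r, Bf r.2.1 (e (π r)).2.1).toNat *
    C (D.a₁ ^ ((AT : ℤ) + ∑ r, Af D.t D.n r.2.1 (e (π r)).2.1).toNat *
      D.a₂ ^ ((AT : ℤ) - ∑ r, Af D.t D.n r.2.1 (e (π r)).2.1).toNat)

/-- The exponents are bounded by `OT`, `AT`. -/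
def Dat.Good (D : Dat) {S L₀ T : ℕ} (e : Ix S L₀ → Ix S T) (OT AT : ℕ) : Prop :=
  ∀ π : Equiv.Perm (Ix S L₀), |∑ r, Bf r.2.1 (e (π r)).2.1| ≤ (OT : ℤ) ∧
    |∑ r, Af D.t D.n r.2.1 (e (π r)).2.1| ≤ (AT : ℤ)

/-- Coefficients of the expansion of the entries (function side), `m = (a, b, c)`. -/
noncomputable def Pc (l' ε' w : ℂ) (lam : ℕ) (m : ℕ × ℕ × ℕ) : ℂ :=
  if m.2.2 ≤ lam ∧ lam - m.2.2 ≤ m.1 then
    (lam.choose m.2.2 : ℂ) * ((w * l') ^ (m.1 - (lam - m.2.2)) /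
      ((m.1 - (lam - m.2.2)).factorial : ℂ)) *
      ((starRingEnd ℂ w * ε') ^ m.2.1 / (m.2.1.factorial : ℂ))
  else 0

/-- Coefficients of the expansion of the entries (functional side). -/
noncomputable def Qc (s ζ : ℂ) (tau : ℕ) (m : ℕ × ℕ × ℕ) : ℂ :=
  if m.2.2 ≤ tau ∧ tau - m.2.2 ≤ m.1 then
    (tau.descFactorial m.2.2 : ℂ) * (1 - s) ^ m.2.2 * s ^ (tau - m.2.2) *
      (m.1.descFactorial (tau - m.2.2) : ℂ) * ζ ^ (m.1 - (tau - m.2.2)) *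
      (starRingEnd ℂ ζ) ^ m.2.1
  else 0

/-- `V` of the scale `(S, L₀)`. -/
noncomputable def Vf (S L₀ : ℕ) : ℝ := 2 * Real.pi * S ^ 2 * L₀ * Real.log S

end GSL
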