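import Pool.Agent.Work.MP_327059_nt.Stmts

/-!
# MP_327059_nt, item Trans: `Y` is transcendental
-/

open Polynomial Filter Topology

namespace GSL

namespace Trans

/-- A polynomial with coefficients in `ℤ[β]` comes from `ℚ(β)[X]`. -/
lemma exists_map (hF : StmtField) {β : ℂ} (hβ : IQ β) {P : ℂ[X]} (hP : PolyO β P) :
    ∃ P' : (Fb β)[X], toC P' = P := by
  have h : P ∈ lifts (algebraMap (Fb β) ℂ) := by
    rw [lifts_iff_coeff_lifts]
    intro n
    have h1 : P.coeff n ∈ Kb β := ((hF β hβ).2.1 _ (hP n)).2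
    have h2 : P.coeff n ∈ Fb β := ((hF β hβ).1 _).2 h1
    exact ⟨⟨P.coeff n, h2⟩, rfl⟩
  obtain ⟨P', hP'⟩ := (mem_lifts _).1 h
  exact ⟨P', hP'⟩

/-- The bound for the value at any point. -/
lemma log_eval_le (h1 : StmtL1) {D : ℂ[X]} {x : ℂ} (hx : D.eval x ≠ 0) {A B : ℝ}
    (hA : l1 D ≤ Real.exp A) (hB : (D.natDegree : ℝ) ≤ B) :
    Real.log ‖D.eval x‖ ≤ A + B * Real.posLog ‖x‖ := by
  obtain ⟨-, -, -, -, -, -, -, -, -, hev, -⟩ := h1
  have hpos : 0 < ‖D.eval x‖ := norm_pos_iff.2 hx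
  have hm : (1 : ℝ) ≤ max 1 ‖x‖ := le_max_left _ _
  have hmpos : (0 : ℝ) < max 1 ‖x‖ := by linarith
  have e1 : ‖D.eval x‖ ≤ Real.exp A * (max 1 ‖x‖) ^ D.natDegree :=
    (hev D x).trans (mul_le_mul_of_nonneg_right hA (by positivity))
  have e2 := Real.log_le_log hpos e1
  rw [Real.log_mul (Real.exp_pos _).ne' (by positivity), Real.log_exp, Real.log_pow] at e2
  have e3 : Real.posLog ‖x‖ = Real.log (max 1 ‖x‖) := by
    rw [Real.posLog_eq_log_max_one (norm_nonneg x)]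
  rw [e3]
  have e4 : 0 ≤ Real.log (max 1 ‖x‖) := Real.log_nonneg hm
  have e5 := mul_le_mul_of_nonneg_right hB e4
  linarith

end Trans

open GSL.Trans in
/-- Item Trans. -/
theorem trans (hF : StmtField) (hNG : StmtNG) (hLi : StmtLiou) (hL1 : StmtL1) : StmtTrans := by
  intro β Y hβ hI P hPO hP0 hPY
  -- the minimal polynomial
  obtain ⟨P', hP'⟩ := exists_map hF hβ hPO
  have hP'0 : P' ≠ 0 := by
    rintro rfl
    apply hP0
    rw [← hP']
    simp [toC]
  have halg : IsAlgebraic (Fb β) Y := by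
    refine ⟨P', hP'0, ?_⟩
    rw [← eval_map_algebraMap]
    change (toC P').eval Y = 0
    rw [hP', hPY]
  have hint : IsIntegral (Fb β) Y := halg.isIntegral
  set Q : (Fb β)[X] := minpoly (Fb β) Y with hQ
  have hQm : Q.Monic := minpoly.monic hint
  have hQi : Irreducible Q := minpoly.irreducible hint
  obtain ⟨g, hg⟩ := hNG β hβ Q hQm
  have hQ0 : toC Q ≠ 0 := (hQm.map (algebraMap (Fb β) ℂ)).ne_zero
  have hYr : Y ∈ (toC Q).roots := by
    rw [mem_roots hQ0, IsRoot.def]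
    change (Q.map (algebraMap (Fb β) ℂ)).eval Y = 0
    rw [eval_map_algebraMap, hQ, minpoly.aeval]
  obtain ⟨R, hR⟩ := Multiset.exists_cons_of_mem hYr
  -- constants
  obtain ⟨C, c, V₀, hC, hc, hV₀, hfam⟩ := hI (1 / 4) (by norm_num) (by norm_num)
  set q : ℝ := ((toC Q).roots.card : ℝ) with hq
  have hb1 : (1 : ℝ) ≤ (g.leadingCoeff : ℝ) := by
    have := hg.pos
    exact_mod_cast this
  have hlogb : 0 ≤ Real.log (g.leadingCoeff : ℝ) := Real.log_nonneg hb1
  set η : ℝ := ht Q g with hη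
  have hpi := Real.pi_pos
  set K₁ : ℝ := 5 / 4 * (η * Real.sqrt (1 / (2 * Real.pi * C)) +
    q * Real.sqrt (C / (2 * Real.pi))) with hK₁
  obtain ⟨V, hV1, hV2, hV3⟩ : ∃ V : ℝ, V₀ ≤ V ∧ C / c ≤ Real.log V ∧
      16 / 3 * K₁ + 1 ≤ Real.sqrt V := by
    have h1 := eventually_ge_atTop V₀
    have h2 := Real.tendsto_log_atTop.eventually_ge_atTop (C / c)
    have h3 := Real.tendsto_sqrt_atTop.eventually_ge_atTop (16 / 3 * K₁ + 1)
    obtain ⟨V, hV⟩ := (h1.and (h2.and h3)).exists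
    exact ⟨V, hV.1, hV.2.1, hV.2.2⟩
  have hVpos : 0 < V := by linarith
  obtain ⟨L, Fm, hL, hFm⟩ := hfam V C hV1 le_rfl (by rw [div_le_iff₀ hc] at hV2; linarith)
  obtain ⟨D, hD, hDY⟩ := hFm.NV Y (by simp [(Real.exp_pos _).le])
  set δ : ℝ := Real.sqrt (V / (2 * Real.pi * C)) with hδ
  set σ : ℝ := Real.sqrt (V * C / (2 * Real.pi)) with hσ
  have hδ0 : 0 ≤ δ := Real.sqrt_nonneg _
  have hσ0 : 0 ≤ σ := Real.sqrt_nonneg _
  obtain ⟨hall, hsum⟩ := hLi β hβ Q hQm hQi g hg D (hFm.coeff D hD) ⟨Y, hYr, hDY⟩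
  have hdeg := hFm.deg D hD
  have hht := hFm.height D hD
  -- the bound for all roots
  have hgen : ∀ x ∈ (toC Q).roots, Real.log ‖D.eval x‖ ≤
      (1 + 1 / 4) * L * σ + (1 + 1 / 4) * L * δ * Real.posLog ‖x‖ := fun x hx =>
    log_eval_le hL1 (hall x hx) hht hdeg
  -- the bound for `Y`
  have hYb : Real.log ‖D.eval Y‖ ≤ (1 + 1 / 4) * L * σ - 3 / 16 * (L * V) := by
    have e1 := hFm.E1 D hD ((1 - 1 / 4) * V) (by positivity) le_rfl Y
      (by simp [(Real.exp_pos _).le])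
    have e2 := Real.log_le_log (norm_pos_iff.2 hDY) e1
    rw [Real.log_exp] at e2
    refine e2.trans (le_of_eq ?_)
    ring
  -- the sum
  have hs1 : ((toC Q).roots.map fun x => Real.log ‖D.eval x‖).sum ≤
      q * ((1 + 1 / 4) * L * σ) + (1 + 1 / 4) * L * δ *
        ((toC Q).roots.map fun x => Real.posLog ‖x‖).sum - 3 / 16 * (L * V) := by
    have e1 : (R.map fun x => Real.log ‖D.eval x‖).sum ≤
        (R.map fun x => (1 + 1 / 4) * L * σ + (1 + 1 / 4) * L * δ * Real.posLog ‖x‖).sum := by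
      refine Multiset.sum_map_le_sum_map _ _ fun x hx => hgen x ?_
      rw [hR]; exact Multiset.mem_cons_of_mem hx
    have e2 : (R.map fun x => (1 + 1 / 4) * L * σ + (1 + 1 / 4) * L * δ * Real.posLog ‖x‖).sum =
        (R.card : ℝ) * ((1 + 1 / 4) * L * σ) + (1 + 1 / 4) * L * δ *
          (R.map fun x => Real.posLog ‖x‖).sum := by
      rw [Multiset.sum_map_add, Multiset.map_const', Multiset.sum_replicate, nsmul_eq_mul,
        Multiset.sum_map_mul_left]
    have e3 : q = (R.card : ℝ) + 1 := by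
      rw [hq, hR, Multiset.card_cons]; push_cast; ring
    have e4 : 0 ≤ (1 + 1 / 4) * L * δ * Real.posLog ‖Y‖ :=
      mul_nonneg (by positivity) Real.posLog_nonneg
    rw [hR, Multiset.map_cons, Multiset.sum_cons, Multiset.map_cons, Multiset.sum_cons, e3]
    rw [e2] at e1
    nlinarith
  have hηdef : η = 1 / 2 * Real.log g.leadingCoeff +
      ((toC Q).roots.map fun x => Real.posLog ‖x‖).sum := rfl
  have hLpos : 0 < L := by linarith
  have hs2 : 0 ≤ (1 + 1 / 4) * L * (δ * η + q * σ) - 3 / 16 * (L * V) := by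
    have e1 := mul_le_mul_of_nonneg_right hdeg (by linarith : 0 ≤ 1 / 2 *
      Real.log (g.leadingCoeff : ℝ))
    rw [hηdef]
    nlinarith
  have hs3 : 3 / 16 * V ≤ (1 + 1 / 4) * (δ * η + q * σ) := by
    have : 0 ≤ L * ((1 + 1 / 4) * (δ * η + q * σ) - 3 / 16 * V) := by linarith
    have := nonneg_of_mul_nonneg_right this hLpos
    linarith
  have hδe : δ = Real.sqrt V * Real.sqrt (1 / (2 * Real.pi * C)) := by
    rw [hδ, ← Real.sqrt_mul hVpos.le]
    congr 1
    ring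
  have hσe : σ = Real.sqrt V * Real.sqrt (C / (2 * Real.pi)) := by
    rw [hσ, ← Real.sqrt_mul hVpos.le]
    congr 1
    ring
  have hs4 : 3 / 16 * V ≤ Real.sqrt V * K₁ := by
    rw [hδe, hσe] at hs3
    refine hs3.trans (le_of_eq ?_)
    rw [hK₁]
    ring
  have hsq : Real.sqrt V * Real.sqrt V = V := Real.mul_self_sqrt hVpos.le
  have hsV : 0 < Real.sqrt V := Real.sqrt_pos.2 hVpos
  have hs5 : 3 / 16 * Real.sqrt V ≤ K₁ := by
    have : 0 ≤ Real.sqrt V * (K₁ - 3 / 16 * Real.sqrt V) := by nlinarith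
    have := nonneg_of_mul_nonneg_right this hsV
    linarith
  linarith

end GSL
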